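import Mathlib

/-!
The normal distribution function, Riemann sums of the Gaussian density.
-/

set_option autoImplicit false

namespace Pool.Agent.U154.BE

open MeasureTheory Real Filter Topology ProbabilityTheory

/-- the normal distribution function -/
noncomputable def Nc (x : ℝ) : ℝ := (gaussianReal 0 1).real (Set.Iic x)

/-- the normal density -/
noncomputable def ph (x : ℝ) : ℝ := exp (-(x ^ 2 / 2)) / √(2 * π)

theorem ph_eq (x : ℝ) : gaussianPDFReal 0 1 x = ph x := by
  unfold gaussianPDFReal ph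
  simp only [NNReal.coe_one, mul_one, sub_zero]
  rw [div_eq_inv_mul (exp _)]
  congr 2
  ring

theorem ph_cont : Continuous ph := by
  unfold ph
  fun_prop

theorem ph_nonneg (x : ℝ) : 0 ≤ ph x := by
  unfold ph
  positivity

theorem two_le : 2 ≤ √(2 * π) := by
  apply le_sqrt_of_sq_le
  linarith [pi_gt_three]

theorem ph_le (x : ℝ) : ph x ≤ exp (-(x ^ 2 / 2)) / 2 := by
  unfold ph
  exact div_le_div_of_nonneg_left (exp_pos _).le (by norm_num) two_le

theorem ph_le_half (x : ℝ) : ph x ≤ 1 / 2 := by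
  refine (ph_le x).trans ?_
  apply div_le_div_of_nonneg_right _ (by norm_num)
  apply exp_le_one_iff.2
  have : 0 ≤ x ^ 2 / 2 := by positivity
  linarith

theorem ph_int : Integrable ph := by
  have : ph = gaussianPDFReal 0 1 := funext fun x => (ph_eq x).symm
  rw [this]
  exact integrable_gaussianPDFReal 0 1

theorem Nc_eq (x : ℝ) : Nc x = ∫ y in Set.Iic x, ph y := by
  unfold Nc
  rw [measureReal_def, gaussianReal_apply_eq_integral 0 one_ne_zero]
  simp only [ph_eq]
  rw [ENNReal.toReal_ofReal]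
  exact integral_nonneg fun y => ph_nonneg y

theorem Nc_sub (a b : ℝ) : Nc b - Nc a = ∫ y in a..b, ph y := by
  rw [Nc_eq, Nc_eq]
  exact intervalIntegral.integral_Iic_sub_Iic ph_int.integrableOn ph_int.integrableOn

theorem Nc_nonneg (x : ℝ) : 0 ≤ Nc x := measureReal_nonneg

theorem Nc_le_one (x : ℝ) : Nc x ≤ 1 := measureReal_le_one

theorem Nc_mono {a b : ℝ} (h : a ≤ b) : Nc a ≤ Nc b :=
  measureReal_mono (Set.Iic_subset_Iic.2 h)

theorem Nc_lip (a b : ℝ) : |Nc b - Nc a| ≤ |b - a| := by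
  rw [Nc_sub, ← Real.norm_eq_abs]
  have h := intervalIntegral.norm_integral_le_of_norm_le_const (a := a) (b := b) (f := ph)
    (C := 1 / 2) (fun y _ => by rw [Real.norm_eq_abs, abs_of_nonneg (ph_nonneg y)]; exact ph_le_half y)
  have := abs_nonneg (b - a)
  linarith

theorem Nc_low {y : ℝ} (hy : 0 ≤ y) : Nc (-y) ≤ exp (-(y ^ 2 / 2)) := by
  have h := measure_le_le_exp_mul_mgf (μ := gaussianReal 0 1) (X := id) (t := -y) (-y)
    (by linarith) (by simpa using integrable_exp_mul_gaussianReal (μ := 0) (v := 1) (-y))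
  rw [mgf_id_gaussianReal, ← exp_add] at h
  refine h.trans (exp_le_exp.2 ?_)
  simp only [NNReal.coe_one]
  nlinarith

theorem Nc_high {y : ℝ} (hy : 0 ≤ y) : 1 - Nc y ≤ exp (-(y ^ 2 / 2)) := by
  have h := measure_ge_le_exp_mul_mgf (μ := gaussianReal 0 1) (X := id) (t := y) y
    hy (by simpa using integrable_exp_mul_gaussianReal (μ := 0) (v := 1) y)
  rw [mgf_id_gaussianReal, ← exp_add] at h
  have h2 : 1 - Nc y = (gaussianReal 0 1).real (Set.Ioi y) := by
    unfold Nc
    rw [← Set.compl_Iic, probReal_compl_eq_one_sub measurableSet_Iic]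
  rw [h2]
  have h3 : (gaussianReal 0 1).real (Set.Ioi y) ≤ (gaussianReal 0 1).real {x | y ≤ id x} :=
    measureReal_mono fun x hx => by
      show y ≤ x
      exact le_of_lt (Set.mem_Ioi.1 hx)
  refine (h3.trans h).trans (exp_le_exp.2 ?_)
  simp only [NNReal.coe_one]
  nlinarith

theorem exp_sqrt {V : ℝ} (hV : 1 ≤ V) : exp (-(V / 2)) ≤ 1 / √V := by
  have h0 : 0 < √V := sqrt_pos.2 (by linarith)
  have h1 : √V ^ 2 = V := sq_sqrt (by linarith)
  have h2 := add_one_le_exp (V / 2)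
  have h3 : √V ≤ exp (V / 2) := by nlinarith [sq_nonneg (√V - 1)]
  have h4 : exp (-(V / 2)) * exp (V / 2) = 1 := by rw [← exp_add]; simp
  rw [le_div_iff₀ h0]
  calc exp (-(V / 2)) * √V ≤ exp (-(V / 2)) * exp (V / 2) :=
        mul_le_mul_of_nonneg_left h3 (exp_pos _).le
    _ = 1 := h4

/-- change of the scale -/
theorem Nc_scale {l : ℝ} (h1 : 1 / 2 ≤ l) (z : ℝ) : |Nc (l * z) - Nc z| ≤ |l - 1| := by
  rw [Nc_sub, ← Real.norm_eq_abs]
  have hb : ∀ y ∈ Set.uIoc z (l * z), ‖ph y‖ ≤ exp (-(z ^ 2 / 8)) / 2 := by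
    intro y hy
    rw [Real.norm_eq_abs, abs_of_nonneg (ph_nonneg y)]
    refine (ph_le y).trans ?_
    apply div_le_div_of_nonneg_right _ (by norm_num)
    apply exp_le_exp.2
    have h2 : z ^ 2 / 4 ≤ y ^ 2 := by
      rw [Set.uIoc, Set.mem_Ioc] at hy
      rcases le_total 0 z with hz | hz
      · have h3 : z / 2 ≤ min z (l * z) := le_min (by linarith) (by nlinarith)
        nlinarith [hy.1]
      · have h3 : max z (l * z) ≤ z / 2 := max_le (by linarith) (by nlinarith)
        nlinarith [hy.2]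
    linarith
  have h := intervalIntegral.norm_integral_le_of_norm_le_const hb
  refine h.trans ?_
  have e : l * z - z = (l - 1) * z := by ring
  rw [e, abs_mul]
  have h4 : |z| * exp (-(z ^ 2 / 8)) ≤ 2 := by
    have h5 := add_one_le_exp (z ^ 2 / 8)
    have h6 : exp (-(z ^ 2 / 8)) * exp (z ^ 2 / 8) = 1 := by rw [← exp_add]; simp
    have h7 : |z| ≤ 2 * exp (z ^ 2 / 8) := by
      rw [← sq_abs] at h5 ⊢
      nlinarith [sq_nonneg (|z| - 2)]
    calc |z| * exp (-(z ^ 2 / 8)) ≤ 2 * exp (z ^ 2 / 8) * exp (-(z ^ 2 / 8)) :=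
          mul_le_mul_of_nonneg_right h7 (exp_pos _).le
      _ = 2 * (exp (-(z ^ 2 / 8)) * exp (z ^ 2 / 8)) := by ring
      _ = 2 := by rw [h6, mul_one]
  have h8 := abs_nonneg (l - 1)
  nlinarith

/-- Riemann sums -/
theorem riem {g W : ℝ → ℝ} (hg : Continuous g) (hW : ∀ x y, x ≤ y → |g x - g y| ≤ W y - W x)
    (N : ℕ) : |∑ k ∈ Finset.range N, g k - ∫ y in (0:ℝ)..N, g y| ≤ W N - W 0 := by
  induction N with
  | zero => simp
  | succ N ih =>
    rw [Finset.sum_range_succ]
    have hi : ∀ a b : ℝ, IntervalIntegrable g volume a b := fun a b => hg.intervalIntegrable a b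
    have e1 : ∫ y in (0:ℝ)..((N + 1 : ℕ) : ℝ), g y =
        (∫ y in (0:ℝ)..N, g y) + ∫ y in (N:ℝ)..((N + 1 : ℕ) : ℝ), g y :=
      (intervalIntegral.integral_add_adjacent_intervals (hi _ _) (hi _ _)).symm
    have e2 : g N - ∫ y in (N:ℝ)..((N + 1 : ℕ) : ℝ), g y =
        ∫ y in (N:ℝ)..((N + 1 : ℕ) : ℝ), (g N - g y) := by
      rw [intervalIntegral.integral_sub (by simp) (hi _ _)]
      simp
    have h1 : |g N - ∫ y in (N:ℝ)..((N + 1 : ℕ) : ℝ), g y| ≤ W ((N + 1 : ℕ) : ℝ) - W N := by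
      rw [e2, ← Real.norm_eq_abs]
      have h := intervalIntegral.norm_integral_le_of_norm_le_const (a := (N:ℝ))
        (b := ((N + 1 : ℕ) : ℝ)) (f := fun y => g N - g y) (C := W ((N + 1 : ℕ) : ℝ) - W N)
        (fun y hy => by
          rw [Set.uIoc_of_le (by push_cast; linarith)] at hy
          rw [Real.norm_eq_abs]
          have i1 := hW N y hy.1.le
          have i2 := (abs_nonneg _).trans (hW y ((N + 1 : ℕ) : ℝ) hy.2)
          linarith)
      refine h.trans (le_of_eq ?_)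
      push_cast
      rw [add_sub_cancel_left, abs_one, mul_one]
    have e3 : ∑ k ∈ Finset.range N, g k + g N - ∫ y in (0:ℝ)..((N + 1 : ℕ) : ℝ), g y =
        (∑ k ∈ Finset.range N, g k - ∫ y in (0:ℝ)..N, g y) +
          (g N - ∫ y in (N:ℝ)..((N + 1 : ℕ) : ℝ), g y) := by
      rw [e1]
      ring
    rw [e3]
    refine (abs_add_le _ _).trans ?_
    linarith

/-- the Gaussian density with mean `μ` and variance `V` -/
noncomputable def gd (μ V x : ℝ) : ℝ := exp (-((μ - x) ^ 2 / (2 * V))) / √(2 * π * V)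

theorem gd_cont (μ V : ℝ) : Continuous (gd μ V) := by
  unfold gd
  fun_prop

theorem gd_nonneg (μ V x : ℝ) : 0 ≤ gd μ V x := by
  unfold gd
  positivity

theorem gd_mono {μ V x y : ℝ} (hV : 0 < V) (h : (μ - y) ^ 2 ≤ (μ - x) ^ 2) :
    gd μ V x ≤ gd μ V y := by
  unfold gd
  apply div_le_div_of_nonneg_right _ (sqrt_nonneg _)
  apply exp_le_exp.2
  have := div_le_div_of_nonneg_right h (show 0 ≤ 2 * V by linarith)
  linarith

theorem gd_top {μ V : ℝ} (hV : 0 < V) : gd μ V μ ≤ 1 / 2 * (1 / √V) := by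
  unfold gd
  rw [sub_self, sqrt_mul (by positivity)]
  have h0 : 0 < √V := sqrt_pos.2 hV
  have h1 := two_le
  simp only [ne_eq, OfNat.ofNat_ne_zero, not_false_eq_true, zero_pow, zero_div, neg_zero, exp_zero]
  rw [one_div_mul_one_div]
  apply div_le_div_of_nonneg_left (by norm_num) (by positivity)
  exact mul_le_mul_of_nonneg_right h1 h0.le

open Classical in
/-- the total variation of the density -/
noncomputable def wd (μ V x : ℝ) : ℝ := if x ≤ μ then gd μ V x else 2 * gd μ V μ - gd μ V x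

theorem wd_var {μ V : ℝ} (hV : 0 < V) (x y : ℝ) (hxy : x ≤ y) :
    |gd μ V x - gd μ V y| ≤ wd μ V y - wd μ V x := by
  have hx : gd μ V x ≤ gd μ V μ := gd_mono hV (by nlinarith [sq_nonneg (μ - x)])
  have hy : gd μ V y ≤ gd μ V μ := gd_mono hV (by nlinarith [sq_nonneg (μ - y)])
  unfold wd
  by_cases h1 : y ≤ μ
  · rw [if_pos h1, if_pos (hxy.trans h1)]
    have : gd μ V x ≤ gd μ V y := gd_mono hV (by nlinarith)
    rw [abs_sub_comm, abs_of_nonneg (by linarith)]
  · rw [if_neg h1]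
    by_cases h2 : x ≤ μ
    · rw [if_pos h2, abs_le]
      constructor <;> linarith
    · rw [if_neg h2]
      have : gd μ V y ≤ gd μ V x := gd_mono hV (by nlinarith [not_le.1 h2])
      rw [abs_of_nonneg (by linarith)]
      linarith

theorem wd_bd {μ V : ℝ} (hV : 0 < V) (x y : ℝ) : wd μ V y - wd μ V x ≤ 1 / √V := by
  have h1 := gd_top (μ := μ) hV
  have h2 : ∀ x, 0 ≤ wd μ V x ∧ wd μ V x ≤ 2 * gd μ V μ := by
    intro x
    have hx : gd μ V x ≤ gd μ V μ := gd_mono hV (by nlinarith [sq_nonneg (μ - x)])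
    have h0 := gd_nonneg μ V x
    unfold wd
    split_ifs <;> constructor <;> linarith
  have := h2 x
  have := h2 y
  linarith

theorem gd_int {μ V : ℝ} (hV : 0 < V) (a b : ℝ) :
    ∫ y in a..b, gd μ V y = Nc ((b - μ) / √V) - Nc ((a - μ) / √V) := by
  have h0 : 0 < √V := sqrt_pos.2 hV
  have hV2 : √V ^ 2 = V := sq_sqrt hV.le
  rw [Nc_sub]
  have h := intervalIntegral.integral_comp_div_sub (a := a) (b := b) (f := ph) h0.ne' (μ / √V)
  have e : ∀ y, gd μ V y = (1 / √V) * ph (y / √V - μ / √V) := by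
    intro y
    unfold gd ph
    rw [sqrt_mul (by positivity), ← sub_div, div_pow, hV2]
    have : (μ - y) ^ 2 / (2 * V) = (y - μ) ^ 2 / V / 2 := by
      field_simp
      ring
    rw [this]
    field_simp
  simp_rw [e]
  rw [intervalIntegral.integral_const_mul, h, smul_eq_mul, ← mul_assoc, one_div_mul_cancel h0.ne',
    one_mul, sub_div, sub_div]

end Pool.Agent.U154.BE
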