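import Pool.Agent.U154.BE.Chd
import Pool.Agent.U154.BE.Gs

/-!
The Berry-Esseen theorem for sums of independent Bernoulli variables.
-/

set_option autoImplicit false

namespace Pool.Agent.U154.BE

open MeasureTheory Real Filter Topology
open Pool.Agent.H450R4.NL (Ph)

theorem bes {c : ℝ} (hc : 0 < c) : ∃ C : ℝ, 0 < C ∧ ∀ (s : Multiset ℝ),
    (∀ p ∈ s, 0 < p ∧ p ≤ 1) → ∀ V : ℝ, V = (s.map (fun p => p * (1 - p))).sum → 1 ≤ V →
    s.sum ≤ c * V → ∀ (P : ℕ → ℝ),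
    (∀ k : ℕ, ∫ u in (-π)..π, Ph s u * Complex.exp (-(k * (u * Complex.I))) =
      (P k : ℂ) * (2 * π)) → (∀ k, 0 ≤ P k) → (∀ N, ∑ k ∈ Finset.range N, P k ≤ 1) → ∀ m : ℕ,
    |∑ k ∈ Finset.range (m + 1), P k - Nc ((m - s.sum) / √V)| ≤ C / √V := by
  obtain ⟨C0, hC0, h1⟩ := sumk hc
  refine ⟨C0 + 4, by linarith, ?_⟩
  intro s hs V hV hV1 hsum P hP hP0 hP1
  have hVp : 0 < V := by linarith
  have hq : 0 < √V := sqrt_pos.2 hVp
  have hqq : √V ^ 2 = V := sq_sqrt hVp.le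
  obtain ⟨μ, hμ⟩ : ∃ μ, μ = s.sum := ⟨_, rfl⟩
  have hVμ : V ≤ μ := by
    have e : s.sum = (s.map (fun p => p)).sum := by rw [Multiset.map_id']
    rw [hV, hμ, e]
    apply Multiset.sum_map_le_sum_map
    intro p hp
    have := hs p hp
    nlinarith [this.1, this.2]
  have hE : exp (-((μ / √V) ^ 2 / 2)) ≤ 1 / √V := by
    refine le_trans ?_ (exp_sqrt hV1)
    apply exp_le_exp.2
    rw [div_pow, hqq]
    have : V ≤ μ ^ 2 / V := by
      rw [le_div_iff₀ hVp]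
      nlinarith
    linarith
  have hμ0 : 0 ≤ μ / √V := by
    have : 0 ≤ μ := by linarith
    positivity
  -- the first case
  have case1 : ∀ m : ℕ, ((m + 1 : ℕ) : ℝ) ≤ (2 * c + 3) * V →
      |∑ k ∈ Finset.range (m + 1), P k - Nc ((m - μ) / √V)| ≤ (C0 + 3) / √V := by
    intro m hm
    have k1 := h1 s hs V hV hV1 hsum P hP (m + 1) hm
    rw [← hμ] at k1
    have e0 : ∀ k : ℕ, exp (-((μ - k) ^ 2 / (2 * V))) / √(2 * π * V) = gd μ V k := fun k => rfl
    simp only [e0] at k1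
    rw [Finset.sum_sub_distrib] at k1
    have k2 := riem (g := gd μ V) (W := wd μ V) (gd_cont μ V) (wd_var hVp) (m + 1)
    have k3 := wd_bd (μ := μ) hVp 0 ((m + 1 : ℕ) : ℝ)
    rw [gd_int hVp] at k2
    have k4 : |Nc ((((m + 1 : ℕ) : ℝ) - μ) / √V) - Nc ((m - μ) / √V)| ≤ 1 / √V := by
      refine (Nc_lip _ _).trans (le_of_eq ?_)
      rw [← sub_div]
      push_cast
      have : (m:ℝ) + 1 - μ - (m - μ) = 1 := by ring
      rw [this, abs_of_nonneg (by positivity)]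
    have k5 : Nc ((0 - μ) / √V) ≤ 1 / √V := by
      have e : (0 - μ) / √V = -(μ / √V) := by ring
      rw [e]
      exact (Nc_low hμ0).trans hE
    have k6 := Nc_nonneg ((0 - μ) / √V)
    have e9 : (C0 + 3) / √V = C0 / √V + 3 * (1 / √V) := by ring
    rw [e9]
    rw [abs_le] at k1 k2 k4 ⊢
    constructor <;> linarith [k1.1, k1.2, k2.1, k2.2, k4.1, k4.2]
  intro m
  rw [← hμ]
  rcases le_or_gt ((m + 1 : ℕ) : ℝ) ((2 * c + 3) * V) with hm | hm
  · refine (case1 m hm).trans ?_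
    apply div_le_div_of_nonneg_right _ hq.le
    linarith
  · obtain ⟨m0, hm0⟩ : ∃ m0 : ℕ, m0 = ⌈2 * μ⌉₊ := ⟨_, rfl⟩
    have i1 : 2 * μ ≤ m0 := by rw [hm0]; exact Nat.le_ceil _
    have i2 : (m0 : ℝ) < 2 * μ + 1 := by
      rw [hm0]
      exact Nat.ceil_lt_add_one (by linarith)
    have i3 : μ ≤ c * V := by rw [hμ]; exact hsum
    have i4 : ((m0 + 1 : ℕ) : ℝ) ≤ (2 * c + 3) * V := by
      push_cast
      nlinarith
    have i5 : m0 + 1 ≤ m + 1 := by
      have : ((m0 + 1 : ℕ) : ℝ) < ((m + 1 : ℕ) : ℝ) := lt_of_le_of_lt i4 hm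
      exact_mod_cast this.le
    have k1 := case1 m0 i4
    have k2 : ∑ k ∈ Finset.range (m0 + 1), P k ≤ ∑ k ∈ Finset.range (m + 1), P k :=
      Finset.sum_le_sum_of_subset_of_nonneg (Finset.range_mono i5) fun k _ _ => hP0 k
    have k3 := hP1 (m + 1)
    have i6 : μ / √V ≤ (m0 - μ) / √V := div_le_div_of_nonneg_right (by linarith) hq.le
    have i7 : ((m0:ℝ) - μ) / √V ≤ (m - μ) / √V := by
      apply div_le_div_of_nonneg_right _ hq.le
      have : (m0 : ℝ) ≤ m := by exact_mod_cast (by omega : m0 ≤ m)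
      linarith
    have k4 : 1 - 1 / √V ≤ Nc ((m0 - μ) / √V) := by
      have j1 := Nc_high hμ0
      have j2 := Nc_mono i6
      linarith
    have k5 := Nc_mono i7
    have k6 := Nc_le_one ((m - μ) / √V)
    have e9 : (C0 + 3) / √V = C0 / √V + 3 * (1 / √V) := by ring
    have e10 : (C0 + 4) / √V = C0 / √V + 4 * (1 / √V) := by ring
    have h0 : 0 ≤ C0 / √V := by positivity
    have h00 : 0 ≤ 1 / √V := by positivity
    rw [e9] at k1
    rw [e10]
    rw [abs_le] at k1 ⊢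
    constructor <;> linarith [k1.1, k1.2]

end Pool.Agent.U154.BE
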