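import Pool.Agent.U154.BE.Bes
import Pool.Agent.U154.UT.Ct

/-!
The Berry-Esseen theorem on the cylinder.
-/

set_option autoImplicit false

namespace Pool.Agent.U154.BE

open MeasureTheory Real Filter Topology H974 Finset
open Pool.Agent.H863R2.NL (EN IsPs cN vN mu mu_nonneg fN EN_mul EN_const)
open Pool.Agent.H450R4.NL (Ph qt tilt_coef)
open Pool.Agent.U154.UT (Tilts tilts EN_fsum cN_pos' vN_pos')

/-- change of the parameters of the normal law -/
theorem chg (D : ℝ) (hD : 0 ≤ D) : ∃ K L0 : ℝ, 0 < K ∧ 1 ≤ L0 ∧ ∀ L, L0 ≤ L → ∀ μ V : ℝ,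
    |μ - cN * L| ≤ D → |V - vN * L| ≤ D → ∀ m : ℝ,
    |Nc ((m - μ) / √V) - Nc ((m - cN * L) / √(vN * L))| ≤ K / √L := by
  have hv := vN_pos'
  refine ⟨D * √(2 / vN) + 2 * D / vN + 1, max 1 (4 * D / vN), by positivity, le_max_left _ _, ?_⟩
  intro L hL μ V hμ hV m
  have hL1 : 1 ≤ L := (le_max_left _ _).trans hL
  have hL2 : 4 * D ≤ vN * L := by
    have := (le_max_right _ _).trans hL
    rw [div_le_iff₀ hv] at this
    linarith
  have hLp : 0 < L := by linarith
  have hvL : 0 < vN * L := by positivity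
  have hVb := abs_le.1 hV
  have hV1 : vN * L / 2 ≤ V := by linarith [hVb.1]
  have hVp : 0 < V := by linarith
  have hsV : 0 < √V := sqrt_pos.2 hVp
  have hsL : 0 < √L := sqrt_pos.2 hLp
  have hs : 0 < √(vN * L) := sqrt_pos.2 hvL
  -- the shift
  have k1 : |Nc ((m - μ) / √V) - Nc ((m - cN * L) / √V)| ≤ D * √(2 / vN) / √L := by
    refine (Nc_lip _ _).trans ?_
    rw [← sub_div, abs_div, abs_of_pos hsV]
    have e1 : m - μ - (m - cN * L) = -(μ - cN * L) := by ring
    rw [e1, abs_neg]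
    have h1 : √L ≤ √(2 / vN) * √V := by
      rw [← sqrt_mul (by positivity)]
      apply sqrt_le_sqrt
      rw [div_mul_eq_mul_div, le_div_iff₀ hv]
      linarith
    rw [div_le_div_iff₀ hsV hsL]
    calc |μ - cN * L| * √L ≤ D * (√(2 / vN) * √V) :=
          mul_le_mul hμ h1 hsL.le hD
      _ = _ := by ring
  -- the scale
  obtain ⟨l, hl⟩ : ∃ l, l = √(vN * L) / √V := ⟨_, rfl⟩
  have hl0 : 0 < l := by rw [hl]; positivity
  have hl2 : l ^ 2 - 1 = (vN * L - V) / V := by
    rw [hl, div_pow, sq_sqrt hvL.le, sq_sqrt hVp.le]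
    field_simp
  have hl3 : |l - 1| ≤ 2 * D / vN / L := by
    have h1 : |l - 1| ≤ |l ^ 2 - 1| := by
      have : l ^ 2 - 1 = (l - 1) * (l + 1) := by ring
      rw [this, abs_mul, abs_of_pos (by linarith : 0 < l + 1)]
      have := abs_nonneg (l - 1)
      nlinarith
    refine h1.trans ?_
    rw [hl2, abs_div, abs_of_pos hVp, abs_sub_comm, div_div, div_le_div_iff₀ hVp hvL]
    calc |V - vN * L| * (vN * L) ≤ D * (vN * L) := mul_le_mul_of_nonneg_right hV hvL.le
      _ ≤ 2 * D * V := by nlinarith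
  have hl4 : 2 * D / vN / L ≤ 1 / 2 := by
    rw [div_div, div_le_iff₀ hvL]
    linarith
  have hl5 : 1 / 2 ≤ l := by
    have := (abs_le.1 (hl3.trans hl4)).1
    linarith
  have k2 := Nc_scale hl5 ((m - cN * L) / √(vN * L))
  have e2 : l * ((m - cN * L) / √(vN * L)) = (m - cN * L) / √V := by
    rw [hl]
    field_simp
  rw [e2] at k2
  have k3 : 2 * D / vN / L ≤ 2 * D / vN / √L := by
    apply div_le_div_of_nonneg_left (by positivity) hsL
    rw [sqrt_le_left (by linarith)]
    nlinarith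
  have k4 : (D * √(2 / vN) + 2 * D / vN + 1) / √L =
      D * √(2 / vN) / √L + 2 * D / vN / √L + 1 / √L := by ring
  rw [k4]
  have k5 : 0 ≤ 1 / √L := by positivity
  have k6 := k2.trans (hl3.trans k3)
  rw [abs_le] at k1 k6 ⊢
  constructor <;> linarith [k1.1, k1.2, k6.1, k6.2]

/-- the probabilities on the cylinder -/
noncomputable def Pk (n k : ℕ) : ℝ := EN n (fun m => if m = k then 1 else 0)

theorem Pk_nonneg (n k : ℕ) : 0 ≤ Pk n k := by
  have h1 : EN n (fun _ => (0:ℝ)) ≤ EN n (fun m => if m = k then 1 else 0) := by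
    apply Pool.Agent.H863R2.NL.EN_mono
    intro m
    show (0:ℝ) ≤ if m = k then 1 else 0
    split_ifs
    · norm_num
    · exact le_rfl
  rw [EN_const n 0] at h1
  exact h1

theorem Pk_sum (n N : ℕ) : ∑ k ∈ Finset.range N, Pk n k = EN n (fun m => ind (m < N)) := by
  unfold Pk
  have e := EN_fsum n (Finset.range N) (fun _ => 1) (fun k m => if m = k then (1:ℝ) else 0)
  simp only [one_mul] at e
  rw [← e]
  congr 1
  funext m
  rw [Finset.sum_ite_eq]
  by_cases h : m < N
  · rw [ind_of h, if_pos (Finset.mem_range.2 h)]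
  · rw [ind_not_of h, if_neg (fun h' => h (Finset.mem_range.1 h'))]

theorem EN_le_one (n : ℕ) (g : ℕ → ℝ) (hg : ∀ m, g m ≤ 1) : EN n g ≤ 1 := by
  rw [← EN_const n 1]
  exact Pool.Agent.H863R2.NL.EN_mono hg

theorem EN_ge_zero (n : ℕ) (g : ℕ → ℝ) (hg : ∀ m, 0 ≤ g m) : 0 ≤ EN n g := by
  rw [← EN_const n 0]
  exact Pool.Agent.H863R2.NL.EN_mono hg

theorem ind_le_one (Q : Prop) : ind Q ≤ 1 := by
  by_cases h : Q
  · rw [ind_of h]
  · rw [ind_not_of h]; norm_num

/-- the Berry-Esseen theorem on the cylinder -/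
theorem cyl_be : ∃ C : ℝ, 0 < C ∧ ∀ n : ℕ, 2 ≤ n → ∀ m : ℕ,
    |EN n (fun j => ind (j ≤ m)) - Nc ((m - cN * log n) / √(vN * log n))| ≤ C / √(log n) := by
  obtain ⟨C0, c0, ps, hT⟩ := tilts (H := 1) one_pos
  have hC0 := hT.C0
  have hc0 := hT.c0
  have hcN := cN_pos'
  have hvN := vN_pos'
  obtain ⟨C1, hC1, hbes⟩ := bes (c := C0 + 1) (by linarith)
  obtain ⟨K, L0, hK, hL0, hchg⟩ := chg C0 hC0
  have hLog : Tendsto (fun n : ℕ => log (n : ℝ)) atTop atTop :=
    tendsto_log_atTop.comp tendsto_natCast_atTop_atTop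
  obtain ⟨n0, hn0⟩ := eventually_atTop.1 ((hLog.eventually_ge_atTop L0).and
    ((hLog.eventually_ge_atTop (2 * (C0 + 1) / vN)).and (eventually_ge_atTop 1)))
  refine ⟨C1 * √(2 / vN) + K + √(log (n0 + 2 : ℕ)), by positivity, ?_⟩
  intro n hn m
  have hn1 : (1:ℝ) < n := by exact_mod_cast (by omega : 1 < n)
  have hL : 0 < log (n:ℝ) := log_pos hn1
  have hsL : 0 < √(log (n:ℝ)) := sqrt_pos.2 hL
  rcases Nat.lt_or_ge n n0 with hs | hs
  · have h1 : |EN n (fun j => ind (j ≤ m)) - Nc ((m - cN * log n) / √(vN * log n))| ≤ 1 := by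
      have a1 := EN_le_one n (fun j => ind (j ≤ m)) fun j => ind_le_one _
      have a2 := EN_ge_zero n (fun j => ind (j ≤ m)) fun j => ind_nonneg _
      have a3 := Nc_nonneg ((m - cN * log n) / √(vN * log n))
      have a4 := Nc_le_one ((m - cN * log n) / √(vN * log n))
      rw [abs_le]
      constructor <;> linarith
    refine h1.trans ?_
    rw [le_div_iff₀ hsL, one_mul]
    have h2 : √(log (n:ℝ)) ≤ √(log (n0 + 2 : ℕ)) := by
      apply sqrt_le_sqrt
      apply log_le_log (by linarith)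
      exact_mod_cast (by omega : n ≤ n0 + 2)
    have h3 : 0 ≤ C1 * √(2 / vN) := by positivity
    linarith
  · obtain ⟨a1, a2, a3⟩ := hn0 n hs
    have hone : ∀ p : ℝ, qt (exp 0) p = p := by
      intro p
      unfold qt
      rw [exp_zero]
      simp
    have hmap : (ps n).map (qt (exp 0)) = ps n := by
      have : qt (exp 0) = id := funext hone
      rw [this, Multiset.map_id]
    have h0 : |(0:ℝ)| ≤ 1 := by simp
    obtain ⟨V, hV⟩ : ∃ V, V = ((ps n).map (fun q => q * (1 - q))).sum := ⟨_, rfl⟩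
    have v1 := hT.var 0 h0 n a3
    have v2 := hT.mv 0 h0 n a3
    have v3 := hT.mem 0 h0 n a3
    have v4 := hT.sm n a3
    rw [hmap, ← hV] at v1 v2
    rw [hmap] at v3
    simp only [abs_zero, zero_mul, add_zero, mul_one] at v1
    have v5 := abs_le.1 v1
    have hvL : 2 * (C0 + 1) ≤ vN * log n := by
      rw [div_le_iff₀ hvN] at a2
      linarith
    have hVL : vN * log n / 2 ≤ V := by linarith [v5.1]
    have hV1 : 1 ≤ V := by linarith
    have hVp : 0 < V := by linarith
    have hsV : 0 < √V := sqrt_pos.2 hVp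
    have hcoef : ∀ k : ℕ, ∫ u in (-π)..π, Ph (ps n) u * Complex.exp (-(k * (u * Complex.I))) =
        (Pk n k : ℂ) * (2 * π) := by
      intro k
      have h1 := tilt_coef (hT.isps n a3) (exp_pos 0) k
      rw [hmap] at h1
      rw [h1]
      congr 2
      have e1 : EN n (fun m => exp 0 ^ m) = 1 := by
        simp only [exp_zero, one_pow]
        exact EN_const n 1
      rw [e1, div_one]
      unfold Pk
      simp only [exp_zero, one_pow]
    have b1 := hbes (ps n) v3 V hV hV1 (by nlinarith) (Pk n) hcoef (Pk_nonneg n) (fun N => by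
      rw [Pk_sum]
      exact EN_le_one n _ fun j => ind_le_one _) m
    rw [Pk_sum] at b1
    have e2 : EN n (fun j => ind (j < m + 1)) = EN n (fun j => ind (j ≤ m)) := by
      congr 1
      funext j
      exact ind_congr (by omega)
    rw [e2] at b1
    have b2 := hchg (log n) a1 (ps n).sum V v4 v1 m
    have b3 : C1 / √V ≤ C1 * √(2 / vN) / √(log n) := by
      rw [div_le_div_iff₀ hsV hsL]
      have h1 : √(log (n:ℝ)) ≤ √(2 / vN) * √V := by
        rw [← sqrt_mul (by positivity)]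
        apply sqrt_le_sqrt
        rw [div_mul_eq_mul_div, le_div_iff₀ hvN]
        linarith
      calc C1 * √(log (n:ℝ)) ≤ C1 * (√(2 / vN) * √V) := mul_le_mul_of_nonneg_left h1 hC1.le
        _ = _ := by ring
    have b4 : (C1 * √(2 / vN) + K + √(log (n0 + 2 : ℕ))) / √(log n) =
        C1 * √(2 / vN) / √(log n) + K / √(log n) + √(log (n0 + 2 : ℕ)) / √(log n) := by ring
    rw [b4]
    have b5 : 0 ≤ √(log (n0 + 2 : ℕ)) / √(log n) := by positivity
    have b6 := b1.trans b3
    rw [abs_le] at b2 b6 ⊢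
    constructor <;> linarith [b2.1, b2.2, b6.1, b6.2]

end Pool.Agent.U154.BE
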