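import Pool.Agent.U154.UT.Llt

/-!
Partial sums of the probabilities of a sum of independent Bernoulli variables: comparison with the
Gaussian density, with the optimal rate.
-/

set_option autoImplicit false

namespace Pool.Agent.U154.BE

open MeasureTheory Real Filter Topology
open Pool.Agent.H450R4.NL (Ph one_norm cos_up Ph_cont)
open Pool.Agent.U154.UT (factor' Ph_norm' gauss_int)

theorem chd (s : Multiset ℝ) (hs : ∀ p ∈ s, 0 < p ∧ p ≤ 1) {w b : ℝ} (hw : |w| ≤ 1 / 2)
    (hb0 : 0 < b) (hb1 : b ≤ 1 / 2) (hb : b * w ^ 2 ≤ 1 - cos w) :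
    ‖Ph s w - Complex.exp ((w * s.sum : ℝ) * Complex.I -
        (w ^ 2 * (s.map (fun p => p * (1 - p))).sum / 2 : ℝ))‖ ≤
      12 * |w| ^ 3 * s.sum * exp (-(b * (s.map (fun p => p * (1 - p))).sum * w ^ 2)) := by
  induction s using Multiset.induction_on with
  | empty => simp [Ph]
  | cons a s ih =>
    have ih' := ih (fun p hp => hs p (Multiset.mem_cons_of_mem hp))
    have ha := hs a (Multiset.mem_cons_self a s)
    have hV0 : 0 ≤ (s.map (fun p => p * (1 - p))).sum := by
      apply Multiset.sum_nonneg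
      intro x hx
      obtain ⟨p, hp, rfl⟩ := Multiset.mem_map.1 hx
      have := hs p (Multiset.mem_cons_of_mem hp)
      exact mul_nonneg this.1.le (by linarith [this.2])
    have hS0 : 0 ≤ s.sum := Multiset.sum_nonneg fun p hp =>
      (hs p (Multiset.mem_cons_of_mem hp)).1.le
    obtain ⟨V, hV⟩ : ∃ V, V = (s.map (fun p => p * (1 - p))).sum := ⟨_, rfl⟩
    obtain ⟨S, hS⟩ : ∃ S, S = s.sum := ⟨_, rfl⟩
    have hPh := Ph_norm' s (fun p hp => hs p (Multiset.mem_cons_of_mem hp)) w
    rw [← hV] at ih' hPh hV0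
    rw [← hS] at ih' hS0
    simp only [Multiset.map_cons, Multiset.sum_cons]
    rw [← hV, ← hS]
    have hw2 : w ^ 2 ≤ 1 / 4 := by
      rw [← sq_abs]
      calc |w| ^ 2 ≤ (1 / 2) ^ 2 := pow_le_pow_left₀ (abs_nonneg w) hw 2
        _ = 1 / 4 := by norm_num
    have hq0 : 0 ≤ a * (1 - a) := mul_nonneg ha.1.le (by linarith [ha.2])
    have hq1 : a * (1 - a) ≤ 1 / 4 := by nlinarith [sq_nonneg (2 * a - 1)]
    obtain ⟨x, hx⟩ : ∃ x, x = b * (a * (1 - a)) * w ^ 2 := ⟨_, rfl⟩
    have hx0 : 0 ≤ x := by rw [hx]; positivity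
    have hx1 : x ≤ 1 / 2 := by
      have h1 : b * (a * (1 - a)) ≤ 1 / 2 * (1 / 4) := mul_le_mul hb1 hq1 hq0 (by norm_num)
      have h2 : b * (a * (1 - a)) * w ^ 2 ≤ 1 / 2 * (1 / 4) * (1 / 4) :=
        mul_le_mul h1 hw2 (sq_nonneg w) (by norm_num)
      rw [hx]
      linarith
    have hx2 : 1 ≤ 2 * exp (-x) := by
      have := add_one_le_exp (-x)
      linarith
    obtain ⟨f, hf⟩ : ∃ f : ℂ, f = 1 + (a : ℂ) * (Complex.exp (w * Complex.I) - 1) := ⟨_, rfl⟩
    obtain ⟨g, hg⟩ : ∃ g : ℂ, g = Complex.exp ((a * w : ℝ) * Complex.I -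
      (a * (1 - a) * w ^ 2 / 2 : ℝ)) := ⟨_, rfl⟩
    obtain ⟨G, hG⟩ : ∃ G : ℂ, G = Complex.exp ((w * S : ℝ) * Complex.I -
      (w ^ 2 * V / 2 : ℝ)) := ⟨_, rfl⟩
    have e1 : Ph (a ::ₘ s) w = f * Ph s w := by
      rw [hf]
      unfold Ph
      rw [Multiset.map_cons, Multiset.prod_cons]
    have e2 : Complex.exp ((w * (a + S) : ℝ) * Complex.I -
        (w ^ 2 * (a * (1 - a) + V) / 2 : ℝ)) = g * G := by
      rw [hg, hG, ← Complex.exp_add]
      congr 1
      push_cast
      ring
    rw [e1, e2]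
    rw [← hG] at ih'
    have e3 : f * Ph s w - g * G = (f - g) * Ph s w + g * (Ph s w - G) := by ring
    rw [e3]
    refine (norm_add_le _ _).trans ?_
    rw [norm_mul, norm_mul]
    have k1 : ‖f - g‖ ≤ 6 * a * |w| ^ 3 := by rw [hf, hg]; exact factor' ha.1.le ha.2 hw
    have k2 : ‖Ph s w‖ ≤ exp (-(b * V * w ^ 2)) := by
      refine hPh.trans ?_
      apply exp_le_exp.2
      have := mul_le_mul_of_nonneg_left hb hV0
      linarith
    have k3 : ‖g‖ ≤ exp (-x) := by
      rw [hg, Complex.norm_exp]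
      apply exp_le_exp.2
      simp only [Complex.sub_re, Complex.mul_re, Complex.ofReal_re, Complex.I_re, mul_zero,
        Complex.ofReal_im, Complex.I_im, mul_one, sub_self, zero_sub]
      rw [hx]
      have h1 : b * (a * (1 - a)) ≤ 1 / 2 * (a * (1 - a)) := mul_le_mul_of_nonneg_right hb1 hq0
      have h2 := mul_le_mul_of_nonneg_right h1 (sq_nonneg w)
      linarith
    have hw3 : 0 ≤ |w| ^ 3 := by positivity
    have e4 : exp (-(b * (a * (1 - a) + V) * w ^ 2)) = exp (-x) * exp (-(b * V * w ^ 2)) := by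
      rw [← exp_add, hx]
      congr 1
      ring
    rw [e4]
    have hE := exp_pos (-(b * V * w ^ 2))
    calc ‖f - g‖ * ‖Ph s w‖ + ‖g‖ * ‖Ph s w - G‖ ≤
        6 * a * |w| ^ 3 * exp (-(b * V * w ^ 2)) +
          exp (-x) * (12 * |w| ^ 3 * S * exp (-(b * V * w ^ 2))) := by
          apply add_le_add
          · exact mul_le_mul k1 k2 (norm_nonneg _) (by have := ha.1; positivity)
          · exact mul_le_mul k3 ih' (norm_nonneg _) (exp_pos _).le
      _ ≤ (6 * a * |w| ^ 3 * exp (-(b * V * w ^ 2))) * (2 * exp (-x)) +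
          exp (-x) * (12 * |w| ^ 3 * S * exp (-(b * V * w ^ 2))) := by
          have h0 : 0 ≤ 6 * a * |w| ^ 3 * exp (-(b * V * w ^ 2)) := by
            have := ha.1
            positivity
          have := le_mul_of_one_le_right h0 hx2
          linarith
      _ = _ := by ring

/-- the sum of the characters -/
noncomputable def Dk (N : ℕ) (u : ℝ) : ℂ :=
  ∑ k ∈ Finset.range N, Complex.exp (-(k * (u * Complex.I)))

theorem Dk_le (N : ℕ) (u : ℝ) : ‖Dk N u‖ ≤ N := by
  unfold Dk
  refine (norm_sum_le _ _).trans ?_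
  have : ∀ k ∈ Finset.range N, ‖Complex.exp (-(k * (u * Complex.I)))‖ = 1 := by
    intro k _
    rw [show (-(k * (u * Complex.I)) : ℂ) = ((-(k * u) : ℝ) : ℂ) * Complex.I by push_cast; ring]
    exact Complex.norm_exp_ofReal_mul_I _
  rw [Finset.sum_congr rfl this]
  simp

theorem Dk_mul (N : ℕ) {u : ℝ} (hu : |u| ≤ π) : ‖Dk N u‖ * |u| ≤ π := by
  have hpi := pi_pos
  obtain ⟨z, hz⟩ : ∃ z : ℂ, z = Complex.exp (((-u : ℝ) : ℂ) * Complex.I) := ⟨_, rfl⟩
  have e1 : Dk N u = ∑ k ∈ Finset.range N, z ^ k := by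
    unfold Dk
    apply Finset.sum_congr rfl
    intro k _
    rw [hz, ← Complex.exp_nat_mul]
    congr 1
    push_cast
    ring
  have hz1 : ‖z‖ = 1 := by rw [hz]; exact Complex.norm_exp_ofReal_mul_I _
  have e2 : (1 - z) * Dk N u = 1 - z ^ N := by rw [e1]; exact mul_neg_geom_sum z N
  have h1 : ‖1 - z ^ N‖ ≤ 2 := by
    refine (norm_sub_le _ _).trans ?_
    rw [norm_pow, hz1, norm_one, one_pow]
    norm_num
  have h2 : (2 / π * |u|) ^ 2 ≤ ‖1 - z‖ ^ 2 := by
    have e3 : ‖1 - z‖ ^ 2 = 2 * (1 - cos u) := by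
      rw [hz, Complex.exp_mul_I, ← Complex.ofReal_cos, ← Complex.ofReal_sin, Complex.sq_norm,
        Complex.normSq_apply]
      simp
      rw [Complex.cos_ofReal_re, Complex.sin_ofReal_re]
      have := sin_sq_add_cos_sq u
      nlinarith
    rw [e3, mul_pow, sq_abs, div_pow]
    have := cos_up hu
    have e4 : (2:ℝ) ^ 2 / π ^ 2 * u ^ 2 = 2 * (2 / π ^ 2 * u ^ 2) := by ring
    rw [e4]
    linarith
  have h3 : 2 / π * |u| ≤ ‖1 - z‖ := by
    exact abs_le_of_sq_le_sq' h2 (norm_nonneg _) |>.2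
  have h4 : (2 / π * |u|) * ‖Dk N u‖ ≤ 2 := by
    calc (2 / π * |u|) * ‖Dk N u‖ ≤ ‖1 - z‖ * ‖Dk N u‖ :=
          mul_le_mul_of_nonneg_right h3 (norm_nonneg _)
      _ = ‖(1 - z) * Dk N u‖ := (norm_mul _ _).symm
      _ ≤ 2 := by rw [e2]; exact h1
  have e5 : (2 / π * |u|) * ‖Dk N u‖ = (‖Dk N u‖ * |u|) * 2 / π := by ring
  rw [e5, div_le_iff₀ hpi] at h4
  linarith

/-- partial sums -/
theorem sumk {c : ℝ} (hc : 0 < c) : ∃ C : ℝ, 0 < C ∧ ∀ (s : Multiset ℝ),
    (∀ p ∈ s, 0 < p ∧ p ≤ 1) → ∀ V : ℝ, V = (s.map (fun p => p * (1 - p))).sum → 1 ≤ V →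
    s.sum ≤ c * V → ∀ (P : ℕ → ℝ),
    (∀ k : ℕ, ∫ u in (-π)..π, Ph s u * Complex.exp (-(k * (u * Complex.I))) =
      (P k : ℂ) * (2 * π)) → ∀ N : ℕ, (N : ℝ) ≤ (2 * c + 3) * V →
    |∑ k ∈ Finset.range N, (P k - exp (-((s.sum - k) ^ 2 / (2 * V))) / √(2 * π * V))| ≤
      C / √V := by
  have hpi := pi_pos
  have hpi3 := pi_gt_three
  obtain ⟨b, hb⟩ : ∃ b : ℝ, b = 2 / π ^ 2 := ⟨_, rfl⟩
  have hb0 : 0 < b := by rw [hb]; positivity
  have hb1 : b ≤ 1 / 2 := by
    rw [hb, div_le_iff₀ (by positivity)]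
    nlinarith
  obtain ⟨C1, hC1⟩ : ∃ C1 : ℝ, C1 = 24 * π * c / b + 4 * π + (2 * c + 3) := ⟨_, rfl⟩
  have hC10 : 0 < C1 := by rw [hC1]; positivity
  refine ⟨C1 * √(2 * π / b), by positivity, ?_⟩
  intro s hs V hV hV1 hsum P hP N hN
  have hVp : 0 < V := by linarith
  have hq : 0 < √V := sqrt_pos.2 hVp
  obtain ⟨f, hf⟩ : ∃ f : ℝ → ℂ, f = fun u => Ph s u * Dk N u := ⟨_, rfl⟩
  obtain ⟨G0, hG0⟩ : ∃ G0 : ℝ → ℂ, G0 = fun u =>
    Complex.exp ((u * s.sum : ℝ) * Complex.I - (u ^ 2 * V / 2 : ℝ)) := ⟨_, rfl⟩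
  obtain ⟨G, hG⟩ : ∃ G : ℝ → ℂ, G = fun u => G0 u * Dk N u := ⟨_, rfl⟩
  have hG0n : ∀ u, ‖G0 u‖ = exp (-(V / 2) * u ^ 2) := by
    intro u
    rw [hG0]
    simp only
    rw [Complex.norm_exp]
    congr 1
    simp only [Complex.sub_re, Complex.mul_re, Complex.ofReal_re, Complex.I_re, mul_zero,
      Complex.ofReal_im, Complex.I_im, mul_one, sub_self, zero_sub]
    ring
  have hfn : ∀ u, |u| ≤ π → ‖Ph s u‖ ≤ exp (-(b * V * u ^ 2)) := by
    intro u hu
    refine (Ph_norm' s hs u).trans ?_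
    rw [← hV]
    apply exp_le_exp.2
    have := mul_le_mul_of_nonneg_left (cos_up hu) hVp.le
    rw [← hb] at this
    linarith
  have hsplit : ∀ u : ℝ, exp (-(b * V * u ^ 2)) =
      exp (-(b * V / 2) * u ^ 2) * exp (-(b * V / 2) * u ^ 2) := by
    intro u
    rw [← exp_add]
    congr 1
    ring
  have hle1 : ∀ u : ℝ, exp (-(b * V / 2) * u ^ 2) ≤ 1 := by
    intro u
    apply exp_le_one_iff.2
    have : 0 ≤ b * V / 2 * u ^ 2 := by positivity
    linarith
  have hGb : ∀ u : ℝ, exp (-(V / 2) * u ^ 2) ≤ exp (-(b * V * u ^ 2)) := by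
    intro u
    apply exp_le_exp.2
    have : b * V * u ^ 2 ≤ 1 / 2 * V * u ^ 2 := by
      apply mul_le_mul_of_nonneg_right _ (sq_nonneg u)
      exact mul_le_mul_of_nonneg_right hb1 hVp.le
    linarith
  -- the pointwise bound
  have key : ∀ u, ‖(Set.Ioc (-π) π).indicator f u - G u‖ ≤ C1 * exp (-(b * V / 2) * u ^ 2) := by
    intro u
    have hE := exp_pos (-(b * V / 2) * u ^ 2)
    have c1 : 24 * π * c / b ≤ C1 := by rw [hC1]; have : 0 ≤ 4 * π := by positivity
                                        linarith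
    have c2 : 4 * π ≤ C1 := by rw [hC1]; have : 0 ≤ 24 * π * c / b := by positivity
                               linarith
    have c3 : 2 * c + 3 ≤ C1 := by
      rw [hC1]
      have : 0 ≤ 24 * π * c / b := by positivity
      linarith
    by_cases hmem : u ∈ Set.Ioc (-π) π
    · rw [Set.indicator_of_mem hmem]
      have hup : |u| ≤ π := abs_le.2 ⟨hmem.1.le, hmem.2⟩
      have hD := Dk_mul N hup
      have e : f u - G u = (Ph s u - G0 u) * Dk N u := by
        rw [hf, hG]
        simp only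
        ring
      rw [e, norm_mul]
      rcases le_or_gt |u| (1 / 2) with hu | hu
      · have h1 := chd s hs hu hb0 hb1 (by have := cos_up hup; rw [← hb] at this; exact this)
        rw [← hV] at h1
        have h1' : ‖Ph s u - G0 u‖ ≤ 12 * |u| ^ 3 * s.sum * exp (-(b * V * u ^ 2)) := by
          rw [hG0]
          exact h1
        have h2 : b * V / 2 * u ^ 2 * exp (-(b * V / 2) * u ^ 2) ≤ 1 := by
          have h3 := add_one_le_exp (b * V / 2 * u ^ 2)
          have h4 : exp (b * V / 2 * u ^ 2) * exp (-(b * V / 2) * u ^ 2) = 1 := by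
            rw [← exp_add]
            have : b * V / 2 * u ^ 2 + -(b * V / 2) * u ^ 2 = 0 := by ring
            rw [this, exp_zero]
          calc b * V / 2 * u ^ 2 * exp (-(b * V / 2) * u ^ 2) ≤
              exp (b * V / 2 * u ^ 2) * exp (-(b * V / 2) * u ^ 2) :=
                mul_le_mul_of_nonneg_right (by linarith) hE.le
            _ = 1 := h4
        calc ‖Ph s u - G0 u‖ * ‖Dk N u‖ ≤
            (12 * |u| ^ 3 * s.sum * exp (-(b * V * u ^ 2))) * ‖Dk N u‖ :=
              mul_le_mul_of_nonneg_right h1' (norm_nonneg _)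
          _ = 12 * u ^ 2 * exp (-(b * V * u ^ 2)) * (s.sum * (‖Dk N u‖ * |u|)) := by
              rw [← sq_abs u]
              ring
          _ ≤ 12 * u ^ 2 * exp (-(b * V * u ^ 2)) * ((c * V) * π) := by
              apply mul_le_mul_of_nonneg_left _ (by positivity)
              exact mul_le_mul hsum hD (by positivity) (by positivity)
          _ = 24 * π * c / b * (b * V / 2 * u ^ 2 * exp (-(b * V / 2) * u ^ 2)) *
              exp (-(b * V / 2) * u ^ 2) := by
              rw [hsplit]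
              field_simp
              ring
          _ ≤ 24 * π * c / b * 1 * exp (-(b * V / 2) * u ^ 2) := by
              apply mul_le_mul_of_nonneg_right _ hE.le
              exact mul_le_mul_of_nonneg_left h2 (by positivity)
          _ ≤ C1 * exp (-(b * V / 2) * u ^ 2) := by
              rw [mul_one]
              exact mul_le_mul_of_nonneg_right c1 hE.le
      · have h1 : ‖Dk N u‖ ≤ 2 * π := by
          have h2 : ‖Dk N u‖ * (1 / 2) ≤ ‖Dk N u‖ * |u| :=
            mul_le_mul_of_nonneg_left hu.le (norm_nonneg _)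
          linarith
        have h2 : ‖Ph s u - G0 u‖ ≤ 2 * exp (-(b * V * u ^ 2)) := by
          refine (norm_sub_le _ _).trans ?_
          rw [hG0n]
          have := hfn u hup
          have := hGb u
          linarith
        have h3 : exp (-(b * V * u ^ 2)) ≤ exp (-(b * V / 2) * u ^ 2) := by
          rw [hsplit]
          have := hle1 u
          nlinarith
        calc ‖Ph s u - G0 u‖ * ‖Dk N u‖ ≤ (2 * exp (-(b * V * u ^ 2))) * (2 * π) :=
              mul_le_mul h2 h1 (norm_nonneg _) (by positivity)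
          _ = 4 * π * exp (-(b * V * u ^ 2)) := by ring
          _ ≤ 4 * π * exp (-(b * V / 2) * u ^ 2) := mul_le_mul_of_nonneg_left h3 (by positivity)
          _ ≤ _ := mul_le_mul_of_nonneg_right c2 hE.le
    · rw [Set.indicator_of_notMem hmem, zero_sub, norm_neg, hG]
      simp only
      rw [norm_mul, hG0n]
      have hu : π ≤ |u| := by
        by_contra hlt
        rw [not_le, abs_lt] at hlt
        exact hmem ⟨hlt.1, hlt.2.le⟩
      have hu2 : 9 ≤ u ^ 2 := by
        rw [← sq_abs]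
        nlinarith
      have h1 : V * exp (-(V / 2) * u ^ 2) ≤ exp (-(b * V / 2) * u ^ 2) := by
        have h2 := add_one_le_exp V
        have h3 : exp V * exp (-(V / 2) * u ^ 2) ≤ exp (-(b * V / 2) * u ^ 2) := by
          rw [← exp_add]
          apply exp_le_exp.2
          have h4 : b * (V * u ^ 2) ≤ 1 / 2 * (V * u ^ 2) :=
            mul_le_mul_of_nonneg_right hb1 (by positivity)
          nlinarith
        refine le_trans ?_ h3
        exact mul_le_mul_of_nonneg_right (by linarith) (exp_pos _).le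
      calc exp (-(V / 2) * u ^ 2) * ‖Dk N u‖ ≤ exp (-(V / 2) * u ^ 2) * ((2 * c + 3) * V) :=
            mul_le_mul_of_nonneg_left ((Dk_le N u).trans hN) (exp_pos _).le
        _ = (2 * c + 3) * (V * exp (-(V / 2) * u ^ 2)) := by ring
        _ ≤ (2 * c + 3) * exp (-(b * V / 2) * u ^ 2) :=
            mul_le_mul_of_nonneg_left h1 (by positivity)
        _ ≤ _ := mul_le_mul_of_nonneg_right c3 hE.le
  -- integrability
  have hDc : Continuous (Dk N) := by
    unfold Dk
    fun_prop
  have hfc : Continuous f := by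
    rw [hf]
    exact (Ph_cont s).mul hDc
  have i1 : Integrable ((Set.Ioc (-π) π).indicator f) := by
    rw [integrable_indicator_iff measurableSet_Ioc]
    exact (hfc.intervalIntegrable (μ := volume) (-π) π).1
  have i3 : Integrable (fun u : ℝ => C1 * exp (-(b * V / 2) * u ^ 2)) :=
    (integrable_exp_neg_mul_sq (show 0 < b * V / 2 by positivity)).const_mul _
  have hGk : ∀ k : ℕ, ∀ u : ℝ, G0 u * Complex.exp (-(k * (u * Complex.I))) =
      Complex.exp (((s.sum - k) * u : ℝ) * Complex.I - (V * u ^ 2 / 2 : ℝ)) := by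
    intro k u
    rw [hG0]
    simp only
    rw [← Complex.exp_add]
    congr 1
    push_cast
    ring
  have hGi : ∀ k : ℕ, Integrable (fun u : ℝ => G0 u * Complex.exp (-(k * (u * Complex.I)))) := by
    intro k
    have hc0 : Continuous (fun u : ℝ => G0 u * Complex.exp (-(k * (u * Complex.I)))) := by
      rw [hG0]
      fun_prop
    refine (integrable_exp_neg_mul_sq (show 0 < V / 2 by positivity)).mono'
      hc0.aestronglyMeasurable ?_
    refine Eventually.of_forall fun u => ?_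
    rw [norm_mul, hG0n]
    have e : ‖Complex.exp (-(k * (u * Complex.I)))‖ = 1 := by
      rw [show (-(k * (u * Complex.I)) : ℂ) = ((-(k * u) : ℝ) : ℂ) * Complex.I by push_cast; ring]
      exact Complex.norm_exp_ofReal_mul_I _
    rw [e, mul_one]
  have hGsum : G = fun u => ∑ k ∈ Finset.range N, G0 u * Complex.exp (-(k * (u * Complex.I))) := by
    rw [hG]
    funext u
    simp only [Dk, Finset.mul_sum]
  have i2 : Integrable G := by
    rw [hGsum]
    exact integrable_finset_sum _ fun k _ => hGi k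
  have j1 := norm_integral_le_of_norm_le i3 (Eventually.of_forall key)
  rw [integral_sub i1 i2, integral_indicator measurableSet_Ioc,
    ← intervalIntegral.integral_of_le (by linarith)] at j1
  have j2 : ∫ u in (-π)..π, f u = ((∑ k ∈ Finset.range N, P k : ℝ) : ℂ) * (2 * π) := by
    have e : f = fun u => ∑ k ∈ Finset.range N, Ph s u * Complex.exp (-(k * (u * Complex.I))) := by
      rw [hf]
      funext u
      simp only [Dk, Finset.mul_sum]
    rw [e, intervalIntegral.integral_finset_sum]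
    · rw [Finset.sum_congr rfl fun k _ => hP k, ← Finset.sum_mul]
      push_cast
      rfl
    · intro k _
      apply Continuous.intervalIntegrable
      exact (Ph_cont s).mul (by fun_prop)
  have hs2 : √(2 * π / V) = (2 * π) / √(2 * π * V) := by
    have h3 : √(2 * π / V) = √(2 * π) / √V := Real.sqrt_div (by positivity) V
    have h4 : √(2 * π * V) = √(2 * π) * √V := Real.sqrt_mul (by positivity) V
    have h2 : 0 < √(2 * π) := sqrt_pos.2 (by positivity)
    rw [h3, h4, div_eq_div_iff hq.ne' (by positivity)]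
    have : √(2 * π) * √(2 * π) = 2 * π := Real.mul_self_sqrt (by positivity)
    calc √(2 * π) * (√(2 * π) * √V) = (√(2 * π) * √(2 * π)) * √V := by ring
      _ = _ := by rw [this]
  have j3 : ∫ u, G u = ((∑ k ∈ Finset.range N,
      exp (-((s.sum - k) ^ 2 / (2 * V))) / √(2 * π * V) : ℝ) : ℂ) * (2 * π) := by
    rw [hGsum, integral_finset_sum _ fun k _ => hGi k]
    push_cast
    rw [Finset.sum_mul]
    apply Finset.sum_congr rfl
    intro k _
    simp_rw [hGk k]
    rw [gauss_int hVp, hs2]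
    push_cast
    ring
  rw [j2, j3, integral_const_mul, integral_gaussian] at j1
  obtain ⟨Y, hY⟩ : ∃ Y, Y = ∑ k ∈ Finset.range N,
    (P k - exp (-((s.sum - k) ^ 2 / (2 * V))) / √(2 * π * V)) := ⟨_, rfl⟩
  have j5 : ‖((∑ k ∈ Finset.range N, P k : ℝ) : ℂ) * (2 * π) -
      ((∑ k ∈ Finset.range N, exp (-((s.sum - k) ^ 2 / (2 * V))) / √(2 * π * V) : ℝ) : ℂ) *
        (2 * π)‖ = |Y| * (2 * π) := by
    rw [← sub_mul, ← Complex.ofReal_sub, ← Finset.sum_sub_distrib, ← hY, norm_mul,
      Complex.norm_real, Real.norm_eq_abs]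
    congr 1
    rw [show (2 * (π : ℂ)) = ((2 * π : ℝ) : ℂ) by push_cast; ring, Complex.norm_real,
      Real.norm_eq_abs, abs_of_pos (by positivity)]
  rw [j5] at j1
  have j7 : √(π / (b * V / 2)) = √(2 * π / b) / √V := by
    have : π / (b * V / 2) = 2 * π / b / V := by field_simp
    rw [this, Real.sqrt_div (by positivity)]
  rw [j7] at j1
  rw [← hY]
  have h0 := abs_nonneg Y
  have e9 : C1 * (√(2 * π / b) / √V) = C1 * √(2 * π / b) / √V := by ring
  rw [e9] at j1
  nlinarith

end Pool.Agent.U154.BE
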