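import Pool.Agent.U154.BE.WCy
import Pool.Agent.U154.BE.Cbe

/-!
The concentration function of the number of changes in the plane, and the Berry-Esseen theorem.
-/

set_option autoImplicit false

namespace Pool.Agent.U154.BE

open H974 H906.Cyl Finset Pool.Agent.W819.EN Real MeasureTheory
open Pool.Agent.H863R2.NL (EN ET TT Good mu fN cN vN EN_mono EN_const ET_le_ET ET_const changes
  prob_changes)
open Pool.Agent.U154.UT (T B Lk cN_pos' vN_pos' ET_T')

theorem inv_le_exp {y : ℝ} (hy : 0 < y) : exp (-(y ^ 2 / 2)) ≤ 1 / y := by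
  have h2 := add_one_le_exp (y ^ 2 / 2)
  have h3 : y ≤ exp (y ^ 2 / 2) := by nlinarith [sq_nonneg (y - 1)]
  have h4 : exp (-(y ^ 2 / 2)) * exp (y ^ 2 / 2) = 1 := by rw [← exp_add]; simp
  rw [le_div_iff₀ hy]
  calc exp (-(y ^ 2 / 2)) * y ≤ exp (-(y ^ 2 / 2)) * exp (y ^ 2 / 2) :=
        mul_le_mul_of_nonneg_left h3 (exp_pos _).le
    _ = 1 := h4

/-- the lower end -/
theorem Nc_end : ∃ K : ℝ, 0 < K ∧ ∀ L : ℝ, 0 < L →
    Nc ((0 - cN * L) / √(vN * L)) ≤ K / √L := by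
  have hc := cN_pos'
  have hv := vN_pos'
  refine ⟨√vN / cN, by positivity, ?_⟩
  intro L hL
  have hs : 0 < √(vN * L) := sqrt_pos.2 (by positivity)
  have hsL : 0 < √L := sqrt_pos.2 hL
  have hsv : 0 < √vN := sqrt_pos.2 hv
  obtain ⟨y, hy⟩ : ∃ y, y = cN * L / √(vN * L) := ⟨_, rfl⟩
  have hy0 : 0 < y := by rw [hy]; positivity
  have e : (0 - cN * L) / √(vN * L) = -y := by rw [hy]; ring
  rw [e]
  refine (Nc_low hy0.le).trans ((inv_le_exp hy0).trans (le_of_eq ?_))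
  have h1 : √L ^ 2 = L := sq_sqrt hL.le
  rw [hy, sqrt_mul hv.le]
  rw [one_div_div, div_eq_div_iff (by positivity) hsL.ne']
  calc √vN * √L * √L = √vN * √L ^ 2 := by ring
    _ = √vN * L := by rw [h1]
    _ = _ := by field_simp

/-- windows on the cylinder -/
theorem cyl_win : ∃ C : ℝ, 0 < C ∧ ∀ n : ℕ, 2 ≤ n → ∀ u v : ℕ, u ≤ v →
    EN n (fun j => ind (u ≤ j ∧ j ≤ v)) ≤ C * ((v + 1 - u : ℕ) : ℝ) / √(log n) := by
  obtain ⟨C, hC, hbe⟩ := cyl_be
  obtain ⟨K, hK, hend⟩ := Nc_end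
  have hv := vN_pos'
  refine ⟨2 * C + K + 1 / √vN, by positivity, ?_⟩
  intro n hn u v huv
  have hn1 : (1:ℝ) < n := by exact_mod_cast (by omega : 1 < n)
  have hL : 0 < log (n:ℝ) := log_pos hn1
  have hsL : 0 < √(log (n:ℝ)) := sqrt_pos.2 hL
  have hsv : 0 < √vN := sqrt_pos.2 hv
  have hs : √(vN * log n) = √vN * √(log n) := sqrt_mul hv.le _
  have hs0 : 0 < √(vN * log n) := by rw [hs]; positivity
  obtain ⟨l, hl⟩ : ∃ l : ℝ, l = ((v + 1 - u : ℕ) : ℝ) := ⟨_, rfl⟩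
  have hl1 : 1 ≤ l := by rw [hl]; exact_mod_cast (by omega : 1 ≤ v + 1 - u)
  have hlv : (v : ℝ) = l + u - 1 := by
    have : ((v + 1 - u : ℕ) : ℝ) + u = v + 1 := by exact_mod_cast (by omega : v + 1 - u + u = v + 1)
    rw [hl]
    linarith
  have k1 := abs_le.1 (hbe n hn v)
  rw [← hl]
  have hmain : EN n (fun j => ind (u ≤ j ∧ j ≤ v)) ≤
      (2 * C + K) / √(log n) + l * (1 / √vN) / √(log n) := by
    rcases Nat.eq_zero_or_pos u with h0 | h0
    · have e : EN n (fun j => ind (u ≤ j ∧ j ≤ v)) ≤ EN n (fun j => ind (j ≤ v)) := by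
        apply EN_mono
        intro j
        by_cases h : j ≤ v
        · rw [ind_of h]; exact ind_le_one _
        · rw [ind_not_of h, ind_not_of (fun h' => h h'.2)]
      have k2 := hend (log n) hL
      have k3 := Nc_lip ((0 - cN * log n) / √(vN * log n)) ((v - cN * log n) / √(vN * log n))
      rw [← sub_div] at k3
      have e2 : (v:ℝ) - cN * log n - (0 - cN * log n) = v := by ring
      rw [e2, abs_of_nonneg (by positivity : 0 ≤ (v:ℝ) / √(vN * log n))] at k3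
      have k4 := (abs_le.1 k3).2
      have k5 : (v:ℝ) / √(vN * log n) ≤ l * (1 / √vN) / √(log n) := by
        have : (v:ℝ) ≤ l := by rw [hlv, h0]; push_cast; linarith
        calc (v:ℝ) / √(vN * log n) ≤ l / √(vN * log n) := div_le_div_of_nonneg_right this hs0.le
          _ = _ := by rw [hs]; field_simp
      have e3 : (2 * C + K) / √(log (n:ℝ)) = C / √(log n) + C / √(log n) + K / √(log n) := by ring
      rw [e3]
      have : 0 ≤ C / √(log (n:ℝ)) := by positivity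
      linarith [k1.2]
    · have e : EN n (fun j => ind (u ≤ j ∧ j ≤ v)) =
          EN n (fun j => ind (j ≤ v)) - EN n (fun j => ind (j ≤ u - 1)) := by
        have : EN n (fun j => ind (u ≤ j ∧ j ≤ v) + ind (j ≤ u - 1)) =
            EN n (fun j => ind (j ≤ v)) := by
          congr 1
          funext j
          by_cases h : j ≤ u - 1
          · rw [ind_of h, ind_not_of (fun h' => by omega : ¬ (u ≤ j ∧ j ≤ v)),
              ind_of (by omega : j ≤ v), zero_add]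
          · rw [ind_not_of h, add_zero]
            exact ind_congr (by omega)
        rw [Pool.Agent.H863R2.NL.EN_add] at this
        linarith
      rw [e]
      have k2 := abs_le.1 (hbe n hn (u - 1))
      have k3 := Nc_lip ((((u - 1 : ℕ) : ℝ) - cN * log n) / √(vN * log n))
        ((v - cN * log n) / √(vN * log n))
      rw [← sub_div] at k3
      have e1 : ((u - 1 : ℕ) : ℝ) = (u:ℝ) - 1 := by
        rw [Nat.cast_sub h0]
        simp
      have e2 : (v:ℝ) - cN * log n - (((u - 1 : ℕ) : ℝ) - cN * log n) = l := by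
        rw [e1, hlv]
        ring
      rw [e2, abs_of_nonneg (by positivity : 0 ≤ l / √(vN * log n))] at k3
      have k4 := (abs_le.1 k3).2
      have k5 : l / √(vN * log n) = l * (1 / √vN) / √(log n) := by rw [hs]; field_simp
      have e3 : (2 * C + K) / √(log (n:ℝ)) = C / √(log n) + C / √(log n) + K / √(log n) := by ring
      rw [e3, ← k5]
      have : 0 ≤ K / √(log (n:ℝ)) := by positivity
      linarith [k1.2, k2.1]
  refine hmain.trans ?_
  have e4 : (2 * C + K + 1 / √vN) * l / √(log n) =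
      (2 * C + K) * l / √(log n) + l * (1 / √vN) / √(log n) := by ring
  rw [e4]
  have h5 : (2 * C + K) / √(log (n:ℝ)) ≤ (2 * C + K) * l / √(log n) := by
    apply div_le_div_of_nonneg_right _ hsL.le
    nlinarith
  linarith

theorem log_le4 {b : ℕ} (hb1 : 1 ≤ b) (hb : b < 24) : √(1 + log ((2 * b : ℕ) : ℝ)) ≤ 4 := by
  have hb0 : (0:ℝ) < ((2 * b : ℕ) : ℝ) := by exact_mod_cast (by omega : 0 < 2 * b)
  have h1 : ((2 * b : ℕ) : ℝ) ≤ 7 ^ 2 := by
    have : 2 * b ≤ 49 := by omega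
    calc ((2 * b : ℕ) : ℝ) ≤ ((49 : ℕ) : ℝ) := by exact_mod_cast this
      _ = 7 ^ 2 := by norm_num
  have h2 : log ((2 * b : ℕ) : ℝ) ≤ 2 * log 7 := by
    calc log ((2 * b : ℕ) : ℝ) ≤ log ((7:ℝ) ^ 2) := log_le_log hb0 h1
      _ = 2 * log 7 := by rw [log_pow]; norm_num
  have h3 : log (7:ℝ) ≤ 7 - 1 := log_le_sub_one_of_pos (by norm_num)
  rw [sqrt_le_left (by norm_num)]
  linarith

theorem log_cmp {x y : ℝ} (hx : 1 ≤ x) (h : y ≤ 4 * x) (hy : 1 ≤ y) :
    √(1 + log y) ≤ 2 * √(1 + log x) := by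
  have h1 : log y ≤ log 4 + log x := by
    rw [← log_mul (by norm_num) (by linarith)]
    exact log_le_log (by linarith) h
  have h2 : log (4:ℝ) ≤ 4 - 1 := log_le_sub_one_of_pos (by norm_num)
  have h3 : 0 ≤ log x := log_nonneg hx
  have h4 : (2:ℝ) = √4 := by
    rw [show (4:ℝ) = 2 ^ 2 by norm_num, sqrt_sq (by norm_num)]
  rw [h4, ← sqrt_mul (by norm_num)]
  apply sqrt_le_sqrt
  linarith

/-- the hypotheses for the windows -/
theorem hyp_win {Q : ℝ} (hQ : 1 ≤ Q) {b0 : ℕ}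
    (h1 : ∀ b, 1 ≤ b → b < b0 → ∀ u v : ℕ, u ≤ v →
      ET (2 * b) (win u v 0) ≤ Q * ((v + 1 - u : ℕ) : ℝ) / √(1 + log ((2 * b : ℕ) : ℝ)))
    {u v : ℕ} (huv : u ≤ v) :
    HypW 2 2 4 b0 (win u v)
      (fun b z => Q * (((v + 1 - u : ℕ) : ℝ) + z) / √(1 + log ((2 * b : ℕ) : ℝ))) where
  sft := by
    intro z X m m' h2 h3
    by_cases h : u ≤ m + z ∧ m ≤ v
    · rw [win_one h, win_one ⟨by omega, by omega⟩]
    · rw [win_zero h]
      exact win_nonneg _ _ _ _
  nn := fun z x => win_nonneg _ _ _ _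
  up := by
    intro b z hb hb0
    have h2 := h1 b hb hb0 (u - z) v (by omega)
    rw [ET_T'] at h2
    have e1 : Ex P2 (B (2 * b)) (fun F => win u v z (T (2 * b) F)) =
        Ex P2 (B (2 * b)) (fun F => win (u - z) v 0 (T (2 * b) F)) := by
      apply Ex_congr
      intro F _
      exact ind_congr (by omega)
    rw [e1]
    refine h2.trans ?_
    apply div_le_div_of_nonneg_right _ (sqrt_nonneg _)
    apply mul_le_mul_of_nonneg_left _ (by linarith)
    exact_mod_cast (by omega : v + 1 - (u - z) ≤ v + 1 - u + z)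
  A0 := by
    intro b z _
    positivity
  sh := by
    intro b z w _
    have hl : (1:ℝ) ≤ ((v + 1 - u : ℕ) : ℝ) := by exact_mod_cast (by omega : 1 ≤ v + 1 - u)
    have hz : (0:ℝ) ≤ z := Nat.cast_nonneg z
    have hw : (0:ℝ) ≤ w := Nat.cast_nonneg w
    have hpw : (w:ℝ) + 1 ≤ 2 ^ w := by
      have := Nat.lt_two_pow_self (n := w)
      exact_mod_cast this
    have key : ((v + 1 - u : ℕ) : ℝ) + ((z + w : ℕ) : ℝ) ≤
        2 ^ w * (((v + 1 - u : ℕ) : ℝ) + z) := by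
      push_cast
      nlinarith
    have e : 2 ^ w * (Q * (((v + 1 - u : ℕ) : ℝ) + z) / √(1 + log ((2 * b : ℕ) : ℝ))) =
        Q * (2 ^ w * (((v + 1 - u : ℕ) : ℝ) + z)) / √(1 + log ((2 * b : ℕ) : ℝ)) := by ring
    rw [e]
    apply div_le_div_of_nonneg_right _ (sqrt_nonneg _)
    exact mul_le_mul_of_nonneg_left key (by linarith)
  inc := by
    intro b z hb
    obtain ⟨b', hb'⟩ : ∃ b', b' = (b + 3) / 4 := ⟨_, rfl⟩
    rw [← hb']
    have c1 : (1:ℝ) ≤ ((2 * b' : ℕ) : ℝ) := by exact_mod_cast (by omega : 1 ≤ 2 * b')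
    have c2 : (1:ℝ) ≤ ((2 * b : ℕ) : ℝ) := by exact_mod_cast (by omega : 1 ≤ 2 * b)
    have c3 : ((2 * b : ℕ) : ℝ) ≤ 4 * ((2 * b' : ℕ) : ℝ) := by
      exact_mod_cast (by omega : 2 * b ≤ 4 * (2 * b'))
    have h2 := log_cmp c1 c3 c2
    have h3 : 0 < √(1 + log ((2 * b' : ℕ) : ℝ)) := sqrt_pos.2 (by linarith [log_nonneg c1])
    have h4 : 0 < √(1 + log ((2 * b : ℕ) : ℝ)) := sqrt_pos.2 (by linarith [log_nonneg c2])
    rw [← mul_div_assoc, div_le_div_iff₀ h3 h4]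
    calc Q * (((v + 1 - u : ℕ) : ℝ) + z) * √(1 + log ((2 * b : ℕ) : ℝ)) ≤
        Q * (((v + 1 - u : ℕ) : ℝ) + z) * (2 * √(1 + log ((2 * b' : ℕ) : ℝ))) :=
          mul_le_mul_of_nonneg_left h2 (by positivity)
      _ = _ := by ring
  base := by
    intro b z x hb1 hb
    refine (win_le_one _ _ _ _).trans ?_
    have hl : (1:ℝ) ≤ ((v + 1 - u : ℕ) : ℝ) := by exact_mod_cast (by omega : 1 ≤ v + 1 - u)
    have hz : (0:ℝ) ≤ z := Nat.cast_nonneg z
    have c2 : (1:ℝ) ≤ ((2 * b : ℕ) : ℝ) := by exact_mod_cast (by omega : 1 ≤ 2 * b)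
    have h4 : 0 < √(1 + log ((2 * b : ℕ) : ℝ)) := sqrt_pos.2 (by linarith [log_nonneg c2])
    rw [← mul_div_assoc, le_div_iff₀ h4, one_mul]
    have := log_le4 hb1 hb
    nlinarith

theorem win0_le (R : ℕ) (u v : ℕ) : ET R (win u v 0) ≤ 1 := by
  rw [← ET_const R 1]
  exact ET_le_ET fun m => win_le_one _ _ _ _

/-- the concentration function in the plane -/
theorem conc : ∃ Q : ℝ, 1 ≤ Q ∧ ∀ b, 1 ≤ b → ∀ u v : ℕ, u ≤ v →
    ET (2 * b) (win u v 0) ≤ Q * ((v + 1 - u : ℕ) : ℝ) / √(1 + log ((2 * b : ℕ) : ℝ)) := by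
  obtain ⟨C1, hC1, hcyl⟩ := cyl_win
  obtain ⟨K, hK, htail⟩ := cyl_tailW (t := 2) (c0 := 2) (K0 := 4) (by norm_num) (by norm_num)
    (by norm_num)
  obtain ⟨κ, hκ⟩ : ∃ κ : ℕ, K * (1 / 2) ^ κ ≤ 1 / 4 := by
    obtain ⟨κ, hκ⟩ := exists_pow_lt_of_lt_one (show 0 < 1 / 4 / K by positivity)
      (show (1 / 2 : ℝ) < 1 by norm_num)
    refine ⟨κ, ?_⟩
    rw [lt_div_iff₀ hK] at hκ
    linarith
  refine ⟨4 + 4 * C1 * (2 + 10 * κ), by
    have : 0 ≤ 4 * C1 * (2 + 10 * κ) := by positivity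
    linarith, ?_⟩
  obtain ⟨Q, hQd⟩ : ∃ Q : ℝ, Q = 4 + 4 * C1 * (2 + 10 * κ) := ⟨_, rfl⟩
  rw [← hQd]
  have hQ4 : 4 ≤ Q := by
    rw [hQd]
    have : 0 ≤ 4 * C1 * (2 + 10 * κ) := by positivity
    linarith
  have hQC : 4 * (C1 * (2 + 10 * κ)) ≤ Q := by rw [hQd]; linarith
  intro b
  induction b using Nat.strong_induction_on with
  | _ b ih =>
    intro hb1 u v huv
    have hl : (1:ℝ) ≤ ((v + 1 - u : ℕ) : ℝ) := by exact_mod_cast (by omega : 1 ≤ v + 1 - u)
    have c2 : (1:ℝ) ≤ ((2 * b : ℕ) : ℝ) := by exact_mod_cast (by omega : 1 ≤ 2 * b)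
    have h4 : 0 < √(1 + log ((2 * b : ℕ) : ℝ)) := sqrt_pos.2 (by linarith [log_nonneg c2])
    rcases Nat.lt_or_ge b 24 with hb | hb
    · refine (win0_le _ _ _).trans ?_
      rw [le_div_iff₀ h4, one_mul]
      have := log_le4 hb1 hb
      nlinarith
    · obtain ⟨a, ha⟩ : ∃ a, a = b / 2 := ⟨_, rfl⟩
      have ha9 : 9 ≤ a := by omega
      have hh := hyp_win (Q := Q) (by linarith) (b0 := b) (fun b' h1 h2 => ih b' h2 h1) huv
      obtain ⟨N, hN⟩ := plane_win a (2 * b) κ u v ha9 (by omega) (by omega)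
      have k1 := htail b _ _ hh a κ N 0 ha9 (by omega)
      have k2 := hcyl (10 * a) (by omega) u (v + 1 + 10 * κ) (by omega)
      have c1 : (1:ℝ) ≤ ((2 * (2 * a) : ℕ) : ℝ) := by exact_mod_cast (by omega : 1 ≤ 2 * (2 * a))
      have c3 : ((2 * b : ℕ) : ℝ) ≤ 4 * ((2 * (2 * a) : ℕ) : ℝ) := by
        exact_mod_cast (by omega : 2 * b ≤ 4 * (2 * (2 * a)))
      have h5 := log_cmp c1 c3 c2
      have h6 : 0 < √(1 + log ((2 * (2 * a) : ℕ) : ℝ)) := sqrt_pos.2 (by linarith [log_nonneg c1])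
      have c5 : (3:ℝ) ≤ ((10 * a : ℕ) : ℝ) := by exact_mod_cast (by omega : 3 ≤ 10 * a)
      have c6 : 1 ≤ log ((10 * a : ℕ) : ℝ) := by
        rw [le_log_iff_exp_le (by linarith)]
        exact exp_one_lt_three.le.trans c5
      have h7 : 0 < √(log ((10 * a : ℕ) : ℝ)) := sqrt_pos.2 (by linarith)
      have h8 : √(1 + log ((2 * b : ℕ) : ℝ)) ≤ 2 * √(log ((10 * a : ℕ) : ℝ)) := by
        have i1 : log ((2 * b : ℕ) : ℝ) ≤ log ((10 * a : ℕ) : ℝ) := by
          apply log_le_log (by linarith)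
          exact_mod_cast (by omega : 2 * b ≤ 10 * a)
        have i2 : (2:ℝ) = √4 := by
          rw [show (4:ℝ) = 2 ^ 2 by norm_num, sqrt_sq (by norm_num)]
        rw [i2, ← sqrt_mul (by norm_num)]
        apply sqrt_le_sqrt
        linarith
      obtain ⟨l, hld⟩ : ∃ l : ℝ, l = ((v + 1 - u : ℕ) : ℝ) := ⟨_, rfl⟩
      have hl2 : ((v + 1 + 10 * κ + 1 - u : ℕ) : ℝ) ≤ (2 + 10 * κ) * l := by
        have : ((v + 1 + 10 * κ + 1 - u : ℕ) : ℝ) = l + (1 + 10 * κ) := by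
          rw [hld]
          exact_mod_cast (by omega : v + 1 + 10 * κ + 1 - u = v + 1 - u + (1 + 10 * κ))
        rw [this]
        have h0 : (0:ℝ) ≤ 1 + 10 * κ := by positivity
        rw [← hld] at hl
        nlinarith
      rw [← hld] at hl k1 ⊢
      simp only [Nat.cast_zero, add_zero] at k1
      have e1 : C1 * ((v + 1 + 10 * κ + 1 - u : ℕ) : ℝ) / √(log ((10 * a : ℕ) : ℝ)) ≤
          (Q / 2) * l / √(1 + log ((2 * b : ℕ) : ℝ)) := by
        rw [div_le_div_iff₀ h7 h4]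
        calc C1 * ((v + 1 + 10 * κ + 1 - u : ℕ) : ℝ) * √(1 + log ((2 * b : ℕ) : ℝ)) ≤
            C1 * ((2 + 10 * κ) * l) * (2 * √(log ((10 * a : ℕ) : ℝ))) := by
              apply mul_le_mul (mul_le_mul_of_nonneg_left hl2 hC1.le) h8 h4.le (by positivity)
          _ = (4 * (C1 * (2 + 10 * κ))) / 2 * l * √(log ((10 * a : ℕ) : ℝ)) := by ring
          _ ≤ Q / 2 * l * √(log ((10 * a : ℕ) : ℝ)) := by
              apply mul_le_mul_of_nonneg_right _ h7.le
              apply mul_le_mul_of_nonneg_right _ (by linarith)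
              linarith
      have e2 : K * (1 / 2) ^ κ * (Q * l / √(1 + log ((2 * (2 * a) : ℕ) : ℝ))) ≤
          (Q / 2) * l / √(1 + log ((2 * b : ℕ) : ℝ)) := by
        have i1 : Q * l / √(1 + log ((2 * (2 * a) : ℕ) : ℝ)) ≤
            2 * (Q * l) / √(1 + log ((2 * b : ℕ) : ℝ)) := by
          rw [div_le_div_iff₀ h6 h4]
          have : 0 ≤ Q * l := by
            have : 0 ≤ Q := by linarith
            have : 0 ≤ l := by linarith
            positivity
          calc Q * l * √(1 + log ((2 * b : ℕ) : ℝ)) ≤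
              Q * l * (2 * √(1 + log ((2 * (2 * a) : ℕ) : ℝ))) := mul_le_mul_of_nonneg_left h5 this
            _ = _ := by ring
        have i2 : 0 ≤ 2 * (Q * l) / √(1 + log ((2 * b : ℕ) : ℝ)) := by
          have : 0 ≤ Q := by linarith
          have : 0 ≤ l := by linarith
          positivity
        calc K * (1 / 2) ^ κ * (Q * l / √(1 + log ((2 * (2 * a) : ℕ) : ℝ))) ≤
            K * (1 / 2) ^ κ * (2 * (Q * l) / √(1 + log ((2 * b : ℕ) : ℝ))) :=
              mul_le_mul_of_nonneg_left i1 (by positivity)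
          _ ≤ 1 / 4 * (2 * (Q * l) / √(1 + log ((2 * b : ℕ) : ℝ))) :=
              mul_le_mul_of_nonneg_right hκ i2
          _ = _ := by ring
      have e3 : Q * l / √(1 + log ((2 * b : ℕ) : ℝ)) =
          (Q / 2) * l / √(1 + log ((2 * b : ℕ) : ℝ)) +
            (Q / 2) * l / √(1 + log ((2 * b : ℕ) : ℝ)) := by ring
      rw [e3]
      linarith

end Pool.Agent.U154.BE
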