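import Pool.Agent.U154.BE.Conc

/-!
The Berry-Esseen theorem in the plane.
-/

set_option autoImplicit false

namespace Pool.Agent.U154.BE

open H974 H906.Cyl Finset Pool.Agent.W819.EN Real MeasureTheory Filter
open Pool.Agent.H863R2.NL (EN ET TT Good mu fN cN vN EN_mono EN_const ET_le_ET ET_const changes
  prob_changes EN_le)
open Pool.Agent.U154.UT (T B Lk cN_pos' vN_pos' ET_T')

theorem ET_ind_bd (n : ℕ) (P : ℕ → Prop) : 0 ≤ ET n (fun j => ind (P j)) ∧
    ET n (fun j => ind (P j)) ≤ 1 := by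
  constructor
  · rw [← ET_const n 0]
    exact ET_le_ET fun m => ind_nonneg _
  · rw [← ET_const n 1]
    exact ET_le_ET fun m => ind_le_one _

theorem plane_be_nat : ∃ C : ℝ, 0 < C ∧ ∀ n : ℕ, 2 ≤ n → ∀ m : ℕ,
    |ET n (fun j => ind (j ≤ m)) - Nc ((m - cN * log n) / √(vN * log n))| ≤ C / √(log n) := by
  have hc := cN_pos'
  have hv := vN_pos'
  obtain ⟨C1, hC1, hbe⟩ := cyl_be
  obtain ⟨Q, hQ, hconc⟩ := conc
  obtain ⟨K, hK, htail⟩ := cyl_tailW (t := 2) (c0 := 2) (K0 := 4) (by norm_num) (by norm_num)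
    (by norm_num)
  have l3 : 0 < log (3:ℝ) := log_pos (by norm_num)
  obtain ⟨K2, L0, hK2, hL0, hchg⟩ := chg ((cN + vN) * log 3) (by positivity)
  have hLog : Tendsto (fun n : ℕ => log (n : ℝ)) atTop atTop :=
    tendsto_log_atTop.comp tendsto_natCast_atTop_atTop
  obtain ⟨n0, hn0⟩ := eventually_atTop.1 ((hLog.eventually_ge_atTop L0).and
    (eventually_ge_atTop 36))
  refine ⟨C1 + K2 + 2 * (Q * (1 + K)) + √(log (n0 + 2 : ℕ)), by positivity, ?_⟩
  intro n hn m
  have hn1 : (1:ℝ) < n := by exact_mod_cast (by omega : 1 < n)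
  have hn0' : (0:ℝ) < n := by linarith
  have hL : 0 < log (n:ℝ) := log_pos hn1
  have hsL : 0 < √(log (n:ℝ)) := sqrt_pos.2 hL
  rcases Nat.lt_or_ge n n0 with hs | hs
  · have h1 : |ET n (fun j => ind (j ≤ m)) - Nc ((m - cN * log n) / √(vN * log n))| ≤ 1 := by
      have a1 := ET_ind_bd n (fun j => j ≤ m)
      have a3 := Nc_nonneg ((m - cN * log n) / √(vN * log n))
      have a4 := Nc_le_one ((m - cN * log n) / √(vN * log n))
      rw [abs_le]
      constructor <;> linarith [a1.1, a1.2]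
    refine h1.trans ?_
    rw [le_div_iff₀ hsL, one_mul]
    have h2 : √(log (n:ℝ)) ≤ √(log (n0 + 2 : ℕ)) := by
      apply sqrt_le_sqrt
      apply log_le_log (by linarith)
      exact_mod_cast (by omega : n ≤ n0 + 2)
    have h3 : 0 ≤ C1 + K2 + 2 * (Q * (1 + K)) := by positivity
    linarith
  · obtain ⟨b1, b2⟩ := hn0 n hs
    obtain ⟨a, ha⟩ : ∃ a, a = n / 4 := ⟨_, rfl⟩
    have ha9 : 9 ≤ a := by omega
    -- the lower bound
    have hanti : Antitone (fun j : ℕ => ind (j ≤ m)) := by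
      intro x y hxy
      show ind (y ≤ m) ≤ ind (x ≤ m)
      by_cases h : y ≤ m
      · rw [ind_of h, ind_of (hxy.trans h)]
      · rw [ind_not_of h]; exact ind_nonneg _
    have k1 : EN (10 * a) (fun j => ind (j ≤ m)) ≤ ET n (fun j => ind (j ≤ m)) :=
      EN_le (by omega) hanti
    -- the upper bound
    obtain ⟨N, hN⟩ := plane_le a n m ha9 (by omega) (by omega)
    have hh := hyp_win (Q := Q) hQ (b0 := 2 * a) (fun b' h1 _ => hconc b' h1) (le_refl m)
    have k2 := htail (2 * a) _ _ hh a 0 N 0 ha9 le_rfl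
    have k3 := hconc (2 * a) (by omega) m m le_rfl
    rw [show 2 * (2 * a) = 4 * a by ring] at k2 k3
    have e1 : ((m + 1 - m : ℕ) : ℝ) = 1 := by
      rw [show m + 1 - m = 1 by omega]
      simp
    rw [e1] at k2 k3
    simp only [Nat.cast_zero, add_zero, pow_zero, mul_one] at k2
    rw [mul_one] at k3
    have c1 : (1:ℝ) ≤ ((4 * a : ℕ) : ℝ) := by exact_mod_cast (by omega : 1 ≤ 4 * a)
    have c2 : (n:ℝ) ≤ 4 * ((4 * a : ℕ) : ℝ) := by exact_mod_cast (by omega : n ≤ 4 * (4 * a))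
    have h5 := log_cmp c1 c2 hn1.le
    have h6 : 0 < √(1 + log ((4 * a : ℕ) : ℝ)) := sqrt_pos.2 (by linarith [log_nonneg c1])
    have h7 : √(log (n:ℝ)) ≤ √(1 + log (n:ℝ)) := sqrt_le_sqrt (by linarith)
    have h8 : Q / √(1 + log ((4 * a : ℕ) : ℝ)) ≤ 2 * Q / √(log n) := by
      rw [div_le_div_iff₀ h6 hsL]
      calc Q * √(log (n:ℝ)) ≤ Q * (2 * √(1 + log ((4 * a : ℕ) : ℝ))) :=
            mul_le_mul_of_nonneg_left (h7.trans h5) (by linarith)
        _ = _ := by ring
    have k4 : ET n (fun j => ind (j ≤ m)) ≤ EN (10 * a) (fun j => ind (j ≤ m)) +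
        2 * (Q * (1 + K)) / √(log n) := by
      have i1 : K * (Q / √(1 + log ((4 * a : ℕ) : ℝ))) ≤ K * (2 * Q / √(log n)) :=
        mul_le_mul_of_nonneg_left h8 hK.le
      have i2 : 2 * (Q * (1 + K)) / √(log (n:ℝ)) =
          2 * Q / √(log n) + K * (2 * Q / √(log n)) := by ring
      rw [i2]
      linarith
    -- the cylinder
    have q1 : (n : ℝ) ≤ ((10 * a : ℕ) : ℝ) := by exact_mod_cast (by omega : n ≤ 10 * a)
    have q2 : ((10 * a : ℕ) : ℝ) ≤ 3 * n := by exact_mod_cast (by omega : 10 * a ≤ 3 * n)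
    have q3 : log (n:ℝ) ≤ log ((10 * a : ℕ) : ℝ) := log_le_log hn0' q1
    have q4 : log ((10 * a : ℕ) : ℝ) ≤ log 3 + log n := by
      rw [← log_mul (by norm_num) hn0'.ne']
      exact log_le_log (by linarith) q2
    have k5 := hbe (10 * a) (by omega) m
    have k6 : C1 / √(log ((10 * a : ℕ) : ℝ)) ≤ C1 / √(log n) :=
      div_le_div_of_nonneg_left hC1.le hsL (sqrt_le_sqrt q3)
    have k7 := hchg (log n) b1 (cN * log ((10 * a : ℕ) : ℝ)) (vN * log ((10 * a : ℕ) : ℝ))
      (by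
        rw [← mul_sub, abs_of_nonneg (mul_nonneg hc.le (by linarith))]
        have h1 : cN * (log ((10 * a : ℕ) : ℝ) - log n) ≤ cN * log 3 :=
          mul_le_mul_of_nonneg_left (by linarith) hc.le
        have h2 : 0 ≤ vN * log 3 := by positivity
        linarith)
      (by
        rw [← mul_sub, abs_of_nonneg (mul_nonneg hv.le (by linarith))]
        have h1 : vN * (log ((10 * a : ℕ) : ℝ) - log n) ≤ vN * log 3 :=
          mul_le_mul_of_nonneg_left (by linarith) hv.le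
        have h2 : 0 ≤ cN * log 3 := by positivity
        linarith) m
    have e9 : (C1 + K2 + 2 * (Q * (1 + K)) + √(log (n0 + 2 : ℕ))) / √(log (n:ℝ)) =
        C1 / √(log n) + K2 / √(log n) + 2 * (Q * (1 + K)) / √(log n) +
          √(log (n0 + 2 : ℕ)) / √(log n) := by ring
    rw [e9]
    have p1 : 0 ≤ √(log (n0 + 2 : ℕ)) / √(log (n:ℝ)) := by positivity
    have p2 : 0 ≤ 2 * (Q * (1 + K)) / √(log (n:ℝ)) := by positivity
    rw [abs_le] at k5 k7 ⊢
    constructor <;> linarith [k5.1, k5.2, k7.1, k7.2]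

/-- the Berry-Esseen theorem in the plane -/
theorem plane_be : ∃ C : ℝ, 0 < C ∧ ∀ n : ℕ, 2 ≤ n → ∀ x : ℝ,
    |(bondLaw hlf).real {ω | ((changes n ω : ℝ) - cN * log n) / √(vN * log n) ≤ x} - Nc x| ≤
      C / √(log n) := by
  have hc := cN_pos'
  have hv := vN_pos'
  obtain ⟨C, hC, hbe⟩ := plane_be_nat
  obtain ⟨K, hK, hend⟩ := Nc_end
  refine ⟨C + K + 1 / √vN, by positivity, ?_⟩
  intro n hn x
  have hn1 : (1:ℝ) < n := by exact_mod_cast (by omega : 1 < n)
  have hL : 0 < log (n:ℝ) := log_pos hn1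
  have hsL : 0 < √(log (n:ℝ)) := sqrt_pos.2 hL
  have hsv : 0 < √vN := sqrt_pos.2 hv
  have hs : √(vN * log n) = √vN * √(log n) := sqrt_mul hv.le _
  have hs0 : 0 < √(vN * log n) := by rw [hs]; positivity
  obtain ⟨X, hX⟩ : ∃ X, X = cN * log n + x * √(vN * log n) := ⟨_, rfl⟩
  have ex : x = (X - cN * log n) / √(vN * log n) := by
    rw [hX]
    field_simp
    ring
  have e1 : {ω | ((changes n ω : ℝ) - cN * log n) / √(vN * log n) ≤ x} =
      {ω | (changes n ω : ℝ) ≤ X} := by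
    ext ω
    show _ ≤ x ↔ _ ≤ X
    rw [div_le_iff₀ hs0, hX]
    constructor <;> intro h <;> linarith
  rw [e1]
  have e9 : (C + K + 1 / √vN) / √(log (n:ℝ)) =
      C / √(log n) + K / √(log n) + 1 / √vN / √(log n) := by ring
  rw [e9]
  have p1 : 0 ≤ C / √(log (n:ℝ)) := by positivity
  have p2 : 0 ≤ K / √(log (n:ℝ)) := by positivity
  have p3 : 0 ≤ 1 / √vN / √(log (n:ℝ)) := by positivity
  rcases lt_or_ge X 0 with hX0 | hX0
  · have e2 : {ω | (changes n ω : ℝ) ≤ X} = ∅ := by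
      ext ω
      simp only [Set.mem_setOf_eq, Set.mem_empty_iff_false, iff_false, not_le]
      have : (0:ℝ) ≤ changes n ω := Nat.cast_nonneg _
      linarith
    rw [e2, measureReal_empty, zero_sub, abs_neg, abs_of_nonneg (Nc_nonneg x)]
    have h1 : Nc x ≤ Nc ((0 - cN * log n) / √(vN * log n)) := by
      apply Nc_mono
      rw [ex]
      apply div_le_div_of_nonneg_right _ hs0.le
      linarith
    have h2 := hend (log n) hL
    linarith
  · have e2 : (bondLaw hlf).real {ω | (changes n ω : ℝ) ≤ X} =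
        ET n (fun j => ind (j ≤ ⌊X⌋₊)) := by
      rw [← prob_changes n (fun j => j ≤ ⌊X⌋₊)]
      congr 1
      ext ω
      show (changes n ω : ℝ) ≤ X ↔ changes n ω ≤ ⌊X⌋₊
      rw [Nat.le_floor_iff hX0]
    rw [e2]
    have k1 := hbe n hn ⌊X⌋₊
    have k2 := Nc_lip x ((⌊X⌋₊ - cN * log n) / √(vN * log n))
    have k3 : |((⌊X⌋₊:ℝ) - cN * log n) / √(vN * log n) - x| ≤ 1 / √vN / √(log n) := by
      have e3 : ((⌊X⌋₊:ℝ) - cN * log n) / √(vN * log n) - x =
          -((X - ⌊X⌋₊) / √(vN * log n)) := by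
        conv_lhs => rw [ex]
        ring
      rw [e3, abs_neg, abs_of_nonneg (div_nonneg (by linarith [Nat.floor_le hX0]) hs0.le)]
      have h1 := Nat.lt_floor_add_one X
      calc (X - ⌊X⌋₊) / √(vN * log n) ≤ 1 / √(vN * log n) :=
            div_le_div_of_nonneg_right (by linarith) hs0.le
        _ = _ := by rw [hs]; field_simp
    have k4 := k2.trans k3
    rw [abs_le] at k1 k4 ⊢
    constructor <;> linarith [k1.1, k1.2, k4.1, k4.2]

end Pool.Agent.U154.BE
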