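import Pool.Agent.U154.BE.WD
import Pool.Agent.U154.UT.Cy
import Pool.Agent.U154.UT.Mo

/-!
Decoupling for families of functions on the cylinder; windows.
-/

set_option autoImplicit false

namespace Pool.Agent.U154.BE

open H974 H906.Cyl Finset Pool.Agent.W819.EN Real
open Pool.Agent.H863R2.NL (EN ET TT Good mu fN EN_avg Ex_per mu_nonneg mu_sum f_le fN_spec
  TT_local good_top good_mono TT_mono TT_le_f)
open Pool.Agent.H863R2.Cyl (Wd rows)
open Pool.Agent.U154.UT (T B Lk T_eq B_eq good_congr B_mono Ex_le_sqrt ok2 ind_pow half_sum tailAll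
  ET_T')

/-- decoupling on the cylinder -/
theorem cyl_decW {K : ℝ} (hK : 0 ≤ K) {h : ℕ → ℕ → ℝ} {A : ℕ → ℕ → ℝ} {a : ℕ} (ha : 9 ≤ a)
    (hc : ClW K h A (2 * a)) (k z : ℕ) (hA : 0 ≤ A (2 * a) z) :
    Ex P2 (CE (10 * a) (20 * a)) (fun F => h z (TT (per (10 * a) F) (4 * a)) *
      ind (¬ Good (10 * a) (2 * a) k F)) ≤
      K * A (2 * a) z *
        √(Ex P2 (CE (10 * a) (20 * a)) (fun F => ind (¬ Good (10 * a) (2 * a) k F))) := by
  obtain ⟨n, hn⟩ : ∃ n, n = 10 * a := ⟨_, rfl⟩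
  obtain ⟨C, hC⟩ : ∃ C, C = CE (10 * a) (20 * a) := ⟨_, rfl⟩
  obtain ⟨X0, hX0⟩ : ∃ X0, X0 = B (4 * a + 8) := ⟨_, rfl⟩
  obtain ⟨I, hI⟩ : ∃ I, I = X0.image (red (10 * a)) := ⟨_, rfl⟩
  have hinj : Set.InjOn (red (10 * a)) X0 := by
    rw [hX0]
    unfold B bx
    exact red_inj_x (by push_cast; omega)
  have hIC : I ⊆ C := by
    rw [hI, hC, hX0]
    unfold B bx
    exact image_red_sub (by omega) (by push_cast; omega) (by push_cast; omega)
  have hS : C = (C \ I) ∪ I := by rw [Finset.sdiff_union_of_subset hIC]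
  have hd : Disjoint (C \ I) I := Finset.sdiff_disjoint
  have e0 : ∀ f : Finset Edg → ℝ, Ex P2 C f =
      Ex P2 (C \ I) (fun X => Ex P2 X0 (fun G => f (X ∪ G.image (red (10 * a))))) := by
    intro f
    conv_lhs => rw [hS]
    rw [Ex_union hd f]
    apply Ex_congr
    intro X _
    rw [hI, Ex_image _ _ _ hinj]
  rw [← hC, e0, e0 (fun F => ind (¬ Good (10 * a) (2 * a) k F))]
  -- the number of changes
  have e1 : ∀ X, X ⊆ C \ I → ∀ G, G ⊆ X0 →
      TT (per (10 * a) (X ∪ G.image (red (10 * a)))) (4 * a) = T (2 * (2 * a)) G := by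
    intro X hX G hG
    rw [T_eq, show 2 * (2 * a) = 4 * a by ring]
    apply TT_local
    intro e he
    rw [← B_eq] at he
    have he0 : e ∈ X0 := by rw [hX0]; exact B_mono (by push_cast; omega) he
    show red (10 * a) e ∈ X ∪ G.image (red (10 * a)) ↔ e ∈ (↑G : Set Edg)
    rw [mem_union, Finset.mem_coe]
    constructor
    · rintro (h1 | h1)
      · exfalso
        exact (mem_sdiff.1 (hX h1)).2 (by rw [hI]; exact mem_image_of_mem _ he0)
      · obtain ⟨e', he', h2⟩ := mem_image.1 h1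
        have := hinj (Finset.mem_coe.2 (hG he')) (Finset.mem_coe.2 he0) h2
        exact this ▸ he'
    · intro h1
      exact Or.inr (mem_image_of_mem _ h1)
  have e2 : ∀ X, X ⊆ C \ I → Ex P2 X0 (fun G =>
      h z (TT (per (10 * a) (X ∪ G.image (red (10 * a)))) (4 * a)) *
        ind (¬ Good (10 * a) (2 * a) k (X ∪ G.image (red (10 * a))))) ≤
      K * A (2 * a) z * √(Ex P2 X0 (fun G =>
        ind (¬ Good (10 * a) (2 * a) k (X ∪ G.image (red (10 * a)))))) := by
    intro X hX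
    have k1 := hc X0 (by rw [hX0]; exact B_mono (by push_cast; omega))
      (fun G => ind (¬ Good (10 * a) (2 * a) k (X ∪ G.image (red (10 * a)))))
      (fun _ => ind_nonneg _) (fun G => by
        apply ind_congr
        apply not_congr
        apply good_congr (by omega)
        intro x hx
        simp only [mem_union, mem_image, mem_sdiff]
        constructor
        · rintro (h1 | ⟨e, h1, h2⟩)
          · exact Or.inl h1
          · refine Or.inr ⟨e, ⟨h1, fun h3 => hx e ?_ h2.symm⟩, h2⟩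
            have e3 : ((2 * a : ℕ) : ℤ) - 1 = 2 * (a : ℤ) - 1 := by push_cast; ring
            rwa [e3] at h3
        · rintro (h1 | ⟨e, h1, h2⟩)
          · exact Or.inl h1
          · exact Or.inr ⟨e, h1.1, h2⟩) z
    simp only [ind_pow] at k1
    refine le_trans (le_of_eq ?_) k1
    apply Ex_congr
    intro G hG
    rw [e1 X hX G hG]
  refine (Ex_mono ok2 e2).trans ?_
  rw [Ex_mul_left]
  refine mul_le_mul_of_nonneg_left ?_ (mul_nonneg hK hA)
  refine (Ex_le_sqrt _ _).trans (le_of_eq ?_)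
  congr 1
  apply Ex_congr
  intro X _
  exact Real.sq_sqrt (Ex_nonneg ok2 fun _ _ => ind_nonneg _)

/-- the sum of the error terms -/
theorem cyl_tailW {t c0 K0 : ℝ} (ht : 1 ≤ t) (hc0 : 0 < c0) (hK0 : 0 ≤ K0) : ∃ K : ℝ, 0 < K ∧
    ∀ (b0 : ℕ) (h : ℕ → ℕ → ℝ) (A : ℕ → ℕ → ℝ), HypW t c0 K0 b0 h A →
    ∀ a κ N z : ℕ, 9 ≤ a → 2 * a ≤ b0 →
    ∑ k ∈ Finset.Ico κ N, Ex P2 (CE (10 * a) (20 * a)) (fun F =>
      h (z + (11 + 10 * k)) (TT (per (10 * a) F) (4 * a)) * ind (¬ Good (10 * a) (2 * a) k F)) ≤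
      K * (1 / 2) ^ κ * A (2 * a) z := by
  have ht0 : 0 < t := by linarith
  obtain ⟨r, hr⟩ : ∃ r : ℝ, r = 1 / (2 * t ^ 10) := ⟨_, rfl⟩
  have hr0 : 0 < r := by rw [hr]; positivity
  have hr1 : t ^ 10 * r = 1 / 2 := by rw [hr]; field_simp
  obtain ⟨K, hK, hdec⟩ := decW ht hc0 hK0
  obtain ⟨C, hC, hbad⟩ := Pool.Agent.W819.EN.BadT.bad_tail tailAll (ρ := r ^ 2) (by positivity)
  refine ⟨K * (t ^ 11 * √C) * 2, by positivity, ?_⟩
  intro b0 h A hh a κ N z ha hab
  have hcl := hdec b0 h A hh (2 * a) (by omega) hab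
  have hA0 := fun z => hh.A0 (2 * a) z (by omega)
  have p3 : ∀ k ∈ Finset.Ico κ N, Ex P2 (CE (10 * a) (20 * a)) (fun F =>
      h (z + (11 + 10 * k)) (TT (per (10 * a) F) (4 * a)) * ind (¬ Good (10 * a) (2 * a) k F)) ≤
      K * A (2 * a) z * (t ^ 11 * √C) * (1 / 2) ^ k := by
    intro k _
    refine (cyl_decW hK.le ha hcl k (z + (11 + 10 * k)) (hA0 _)).trans ?_
    have i2 : √(Ex P2 (CE (10 * a) (20 * a)) (fun F => ind (¬ Good (10 * a) (2 * a) k F))) ≤
        √C * r ^ k := by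
      have := Real.sqrt_le_sqrt (hbad a (by omega) k)
      rwa [Real.sqrt_mul hC.le, ← pow_mul, mul_comm 2 k, pow_mul, Real.sqrt_sq (by positivity)]
        at this
    have i3 := hh.sh (2 * a) z (11 + 10 * k) (by omega)
    have i4 := hA0 z
    calc K * A (2 * a) (z + (11 + 10 * k)) *
          √(Ex P2 (CE (10 * a) (20 * a)) (fun F => ind (¬ Good (10 * a) (2 * a) k F))) ≤
        K * (t ^ (11 + 10 * k) * A (2 * a) z) * (√C * r ^ k) := by
          apply mul_le_mul (mul_le_mul_of_nonneg_left i3 hK.le) i2 (Real.sqrt_nonneg _)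
            (by positivity)
      _ = K * A (2 * a) z * (t ^ 11 * √C) * ((t ^ 10 * r) ^ k) := by
          rw [pow_add, pow_mul t 10 k, mul_pow]
          ring
      _ = _ := by rw [hr1]
  have p4 := Finset.sum_le_sum p3
  rw [← Finset.mul_sum] at p4
  refine p4.trans ?_
  have i4 := hA0 z
  calc K * A (2 * a) z * (t ^ 11 * √C) * ∑ k ∈ Finset.Ico κ N, (1 / 2 : ℝ) ^ k ≤
      K * A (2 * a) z * (t ^ 11 * √C) * (2 * (1 / 2) ^ κ) :=
        mul_le_mul_of_nonneg_left (half_sum κ N) (by positivity)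
    _ = _ := by ring

/-- windows -/
noncomputable def win (u v z m : ℕ) : ℝ := ind (u ≤ m + z ∧ m ≤ v)

theorem win_nonneg (u v z m : ℕ) : 0 ≤ win u v z m := ind_nonneg _

theorem win_one {u v z m : ℕ} (h : u ≤ m + z ∧ m ≤ v) : win u v z m = 1 := ind_of h

theorem win_zero {u v z m : ℕ} (h : ¬ (u ≤ m + z ∧ m ≤ v)) : win u v z m = 0 := ind_not_of h

theorem win_le_one (u v z m : ℕ) : win u v z m ≤ 1 := by
  by_cases h : u ≤ m + z ∧ m ≤ v
  · rw [win_one h]
  · rw [win_zero h]; norm_num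

theorem good_ex (a : ℕ) (ha : 9 ≤ a) : ∃ N : ℕ, ∀ k, N ≤ k → ∀ F, Good (10 * a) (2 * a) k F :=
  ⟨_, fun k hk F => good_top (by omega) (by omega) F hk⟩

/-- a window in the plane and on the cylinder -/
theorem plane_win (a R κ u v : ℕ) (ha : 9 ≤ a) (hR1 : 4 * a ≤ R) (hR2 : 2 * R < 10 * a) :
    ∃ N : ℕ, ET R (win u v 0) ≤ EN (10 * a) (fun j => ind (u ≤ j ∧ j ≤ v + 1 + 10 * κ)) +
      ∑ k ∈ Finset.Ico κ N, Ex P2 (CE (10 * a) (20 * a)) (fun F =>
        win u v (0 + (11 + 10 * k)) (TT (per (10 * a) F) (4 * a)) *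
          ind (¬ Good (10 * a) (2 * a) k F)) := by
  obtain ⟨N, hN⟩ := good_ex a ha
  refine ⟨N, ?_⟩
  rw [EN_avg (n := 10 * a) (by omega) (20 * a) (fun j => ind (u ≤ j ∧ j ≤ v + 1 + 10 * κ)),
    ← Ex_per (n := 10 * a) (k := R) (M := 20 * a) (by omega) (by omega) (win u v 0),
    ← Ex_sum, ← Ex_add]
  apply Ex_mono ok2
  classical
  intro F _
  have hex : ∃ k, Good (10 * a) (2 * a) k F := ⟨N, hN N le_rfl F⟩
  obtain ⟨k0, hk0⟩ : ∃ k0, k0 = Nat.find hex := ⟨_, rfl⟩
  have h1 : Good (10 * a) (2 * a) k0 F := by rw [hk0]; exact Nat.find_spec hex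
  have h2 : k0 ≤ N := by rw [hk0]; exact Nat.find_min' hex (hN N le_rfl F)
  have hnn : ∀ k ∈ Finset.Ico κ N, 0 ≤ win u v (0 + (11 + 10 * k)) (TT (per (10 * a) F) (4 * a)) *
      ind (¬ Good (10 * a) (2 * a) k F) :=
    fun k _ => mul_nonneg (win_nonneg _ _ _ _) (ind_nonneg _)
  have hsum := Finset.sum_nonneg hnn
  have t1 : TT (per (10 * a) F) (4 * a) ≤ TT (per (10 * a) F) R := TT_mono hR1
  have key : ∀ σ τ, win u v 0 (TT (per (10 * a) F) R) -
      ∑ k ∈ Finset.Ico κ N, win u v (0 + (11 + 10 * k)) (TT (per (10 * a) F) (4 * a)) *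
        ind (¬ Good (10 * a) (2 * a) k F) ≤
      ind (u ≤ fN (rows (2 * (10 * a) - 1) (dn (10 * a) (20 * a) F) (20 * a) σ).1
          (rows (2 * (10 * a) - 1) (up (10 * a) (20 * a) F) (20 * a) τ).1 ∧
        fN (rows (2 * (10 * a) - 1) (dn (10 * a) (20 * a) F) (20 * a) σ).1
          (rows (2 * (10 * a) - 1) (up (10 * a) (20 * a) F) (20 * a) τ).1 ≤ v + 1 + 10 * κ) := by
    intro σ τ
    have h3 := f_le fN_spec (by omega) (le_refl (20 * a)) h1 σ τ
    have h4 := TT_le_f fN_spec (n := 10 * a) (k := R) (M := 20 * a) (by omega) (by omega) F σ τ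
    by_cases hw : u ≤ TT (per (10 * a) F) R + 0 ∧ TT (per (10 * a) F) R ≤ v
    · by_cases hk : k0 ≤ κ
      · rw [ind_of (⟨by omega, by omega⟩ :
          u ≤ fN (rows (2 * (10 * a) - 1) (dn (10 * a) (20 * a) F) (20 * a) σ).1
            (rows (2 * (10 * a) - 1) (up (10 * a) (20 * a) F) (20 * a) τ).1 ∧
          fN (rows (2 * (10 * a) - 1) (dn (10 * a) (20 * a) F) (20 * a) σ).1
            (rows (2 * (10 * a) - 1) (up (10 * a) (20 * a) F) (20 * a) τ).1 ≤ v + 1 + 10 * κ)]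
        have := win_le_one u v 0 (TT (per (10 * a) F) R)
        linarith
      · have h5 : ¬ Good (10 * a) (2 * a) (k0 - 1) F := by
          rw [hk0]
          exact Nat.find_min hex (by omega)
        have h6 := Finset.single_le_sum hnn
          (Finset.mem_Ico.2 ⟨by omega, by omega⟩ : k0 - 1 ∈ Ico κ N)
        rw [ind_of h5, mul_one, win_one ⟨by omega, by omega⟩] at h6
        have h7 := win_le_one u v 0 (TT (per (10 * a) F) R)
        have h8 := ind_nonneg (u ≤ fN (rows (2 * (10 * a) - 1) (dn (10 * a) (20 * a) F) (20 * a) σ).1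
            (rows (2 * (10 * a) - 1) (up (10 * a) (20 * a) F) (20 * a) τ).1 ∧
          fN (rows (2 * (10 * a) - 1) (dn (10 * a) (20 * a) F) (20 * a) σ).1
            (rows (2 * (10 * a) - 1) (up (10 * a) (20 * a) F) (20 * a) τ).1 ≤ v + 1 + 10 * κ)
        linarith
    · rw [win_zero hw]
      have h8 := ind_nonneg (u ≤ fN (rows (2 * (10 * a) - 1) (dn (10 * a) (20 * a) F) (20 * a) σ).1
          (rows (2 * (10 * a) - 1) (up (10 * a) (20 * a) F) (20 * a) τ).1 ∧
        fN (rows (2 * (10 * a) - 1) (dn (10 * a) (20 * a) F) (20 * a) σ).1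
          (rows (2 * (10 * a) - 1) (up (10 * a) (20 * a) F) (20 * a) τ).1 ≤ v + 1 + 10 * κ)
      linarith
  have := Pool.Agent.H863R2.NL.CmpAux.avg_ge key
  linarith

/-- the distribution functions in the plane and on the cylinder -/
theorem plane_le (a R x : ℕ) (ha : 9 ≤ a) (hR1 : 4 * a ≤ R) (hR2 : 2 * R < 10 * a) :
    ∃ N : ℕ, ET R (fun j => ind (j ≤ x)) ≤ EN (10 * a) (fun j => ind (j ≤ x)) +
      (ET (4 * a) (win x x 0) + ∑ k ∈ Finset.Ico 0 N, Ex P2 (CE (10 * a) (20 * a)) (fun F =>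
        win x x (0 + (11 + 10 * k)) (TT (per (10 * a) F) (4 * a)) *
          ind (¬ Good (10 * a) (2 * a) k F))) := by
  obtain ⟨N, hN⟩ := good_ex a ha
  refine ⟨N, ?_⟩
  rw [EN_avg (n := 10 * a) (by omega) (20 * a) (fun j => ind (j ≤ x)),
    ← Ex_per (n := 10 * a) (k := R) (M := 20 * a) (by omega) (by omega) (fun j => ind (j ≤ x)),
    ← Ex_per (n := 10 * a) (k := 4 * a) (M := 20 * a) (by omega) (by omega) (win x x 0),
    ← Ex_sum, ← Ex_add, ← Ex_add]
  apply Ex_mono ok2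
  classical
  intro F _
  have hex : ∃ k, Good (10 * a) (2 * a) k F := ⟨N, hN N le_rfl F⟩
  obtain ⟨k0, hk0⟩ : ∃ k0, k0 = Nat.find hex := ⟨_, rfl⟩
  have h1 : Good (10 * a) (2 * a) k0 F := by rw [hk0]; exact Nat.find_spec hex
  have h2 : k0 ≤ N := by rw [hk0]; exact Nat.find_min' hex (hN N le_rfl F)
  have hnn : ∀ k ∈ Finset.Ico 0 N, 0 ≤ win x x (0 + (11 + 10 * k)) (TT (per (10 * a) F) (4 * a)) *
      ind (¬ Good (10 * a) (2 * a) k F) :=
    fun k _ => mul_nonneg (win_nonneg _ _ _ _) (ind_nonneg _)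
  have hsum := Finset.sum_nonneg hnn
  have t1 : TT (per (10 * a) F) (4 * a) ≤ TT (per (10 * a) F) R := TT_mono hR1
  have hw0 := win_nonneg x x 0 (TT (per (10 * a) F) (4 * a))
  have key : ∀ σ τ, ind (TT (per (10 * a) F) R ≤ x) -
      (win x x 0 (TT (per (10 * a) F) (4 * a)) +
      ∑ k ∈ Finset.Ico 0 N, win x x (0 + (11 + 10 * k)) (TT (per (10 * a) F) (4 * a)) *
        ind (¬ Good (10 * a) (2 * a) k F)) ≤
      ind (fN (rows (2 * (10 * a) - 1) (dn (10 * a) (20 * a) F) (20 * a) σ).1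
          (rows (2 * (10 * a) - 1) (up (10 * a) (20 * a) F) (20 * a) τ).1 ≤ x) := by
    intro σ τ
    have h3 := f_le fN_spec (by omega) (le_refl (20 * a)) h1 σ τ
    by_cases hf : fN (rows (2 * (10 * a) - 1) (dn (10 * a) (20 * a) F) (20 * a) σ).1
          (rows (2 * (10 * a) - 1) (up (10 * a) (20 * a) F) (20 * a) τ).1 ≤ x
    · rw [ind_of hf]
      have : ind (TT (per (10 * a) F) R ≤ x) ≤ 1 := by
        by_cases h : TT (per (10 * a) F) R ≤ x
        · rw [ind_of h]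
        · rw [ind_not_of h]; norm_num
      linarith
    · rw [ind_not_of hf]
      by_cases hw : TT (per (10 * a) F) R ≤ x
      · rw [ind_of hw]
        rcases Nat.eq_zero_or_pos k0 with hk | hk
        · rw [win_one (u := x) (v := x) (z := 0) (m := TT (per (10 * a) F) (4 * a))
            ⟨by omega, by omega⟩]
          linarith
        · have h5 : ¬ Good (10 * a) (2 * a) (k0 - 1) F := by
            rw [hk0]
            exact Nat.find_min hex (by omega)
          have h6 := Finset.single_le_sum hnn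
            (Finset.mem_Ico.2 ⟨by omega, by omega⟩ : k0 - 1 ∈ Ico 0 N)
          rw [ind_of h5, mul_one, win_one ⟨by omega, by omega⟩] at h6
          linarith
      · rw [ind_not_of hw]
        linarith
  have := Pool.Agent.H863R2.NL.CmpAux.avg_ge key
  linarith

end Pool.Agent.U154.BE
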