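import Pool.Agent.U154.UT.Dec

/-!
Decoupling for families of functions: the number of changes inside a box and the edges outside half
of the box. `h z m` replaces `h (m + z)` of `Pool.Agent.U154.UT.Dec`; the bounds `A b z` may decrease
in the scale `b`, by bounded factors, and the bounds on the expectations are assumed only for the
scales below `b0`.
-/

set_option autoImplicit false

namespace Pool.Agent.U154.BE

open H974 Finset Pool.Agent.W819.EN Real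
open Pool.Agent.U154.UT (T B Lk lk_bound lk_top lk_tail T_congr T_mono T_le B_mono Ex_cs Ex_le_sqrt
  ok2 ind_pow half_sum lk_sdiff)

/-- the hypotheses on the family `h` and its bounds -/
structure HypW (t c0 K0 : ℝ) (b0 : ℕ) (h : ℕ → ℕ → ℝ) (A : ℕ → ℕ → ℝ) : Prop where
  sft : ∀ z X m m', m' ≤ m → m ≤ m' + X → h z m ≤ h (z + X) m'
  nn : ∀ z x, 0 ≤ h z x
  up : ∀ b z : ℕ, 1 ≤ b → b < b0 → Ex P2 (B (2 * b)) (fun F => h z (T (2 * b) F)) ≤ A b z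
  A0 : ∀ b z : ℕ, 1 ≤ b → 0 ≤ A b z
  sh : ∀ b z w : ℕ, 1 ≤ b → A b (z + w) ≤ t ^ w * A b z
  inc : ∀ b z : ℕ, 24 ≤ b → A ((b + 3) / 4) z ≤ c0 * A b z
  base : ∀ b z x : ℕ, 1 ≤ b → b < 24 → h z x ≤ K0 * A b z

theorem HypW.wk {t c0 K0 : ℝ} {b0 : ℕ} {h : ℕ → ℕ → ℝ} {A : ℕ → ℕ → ℝ}
    (hh : HypW t c0 K0 b0 h A) (z : ℕ) {X Y : ℕ} (hXY : X ≤ Y) (m : ℕ) :
    h (z + X) m ≤ h (z + Y) m := by
  have := hh.sft (z + X) (Y - X) m m le_rfl (by omega)
  rwa [show z + X + (Y - X) = z + Y by omega] at this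

/-- pointwise bound -/
theorem ptW {b κ N : ℕ} (hb : 1 ≤ b) (hN : ∀ k, N ≤ k → ∀ F, Lk b k F) {t c0 K0 : ℝ} {b0 : ℕ}
    {h : ℕ → ℕ → ℝ} {A : ℕ → ℕ → ℝ} (hh : HypW t c0 K0 b0 h A) (z : ℕ) {R : ℕ} (h1R : 2 * b ≤ R)
    (h2R : R ≤ 8 * b) (F : Finset Edg) :
    h z (T R F) ≤ h (z + (2 + 10 * κ)) (T (2 * b) F) +
      ∑ k ∈ Finset.Ico κ N, h (z + (12 + 10 * k)) (T (2 * b) F) * ind (¬ Lk b k F) := by
  classical
  have hex : ∃ k, Lk b k F := ⟨N, hN N le_rfl F⟩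
  obtain ⟨k0, hk0⟩ : ∃ k0, k0 = Nat.find hex := ⟨_, rfl⟩
  have h1 : Lk b k0 F := by rw [hk0]; exact Nat.find_spec hex
  have h2 : k0 ≤ N := by rw [hk0]; exact Nat.find_min' hex (hN N le_rfl F)
  have h3 := lk_bound hb h1
  have t1 : T (2 * b) F ≤ T R F := T_mono h1R F
  have t2 : T R F ≤ T (8 * b) F := T_mono h2R F
  have hnn : ∀ k ∈ Finset.Ico κ N, 0 ≤ h (z + (12 + 10 * k)) (T (2 * b) F) * ind (¬ Lk b k F) :=
    fun k _ => mul_nonneg (hh.nn _ _) (ind_nonneg _)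
  by_cases hk : k0 ≤ κ
  · have h4 : h z (T R F) ≤ h (z + (2 + 10 * κ)) (T (2 * b) F) := hh.sft _ _ _ _ t1 (by omega)
    have h5 := Finset.sum_nonneg hnn
    linarith
  · have h4 : ¬ Lk b (k0 - 1) F := by
      rw [hk0]
      exact Nat.find_min hex (by omega)
    have h5 : h z (T R F) ≤
        h (z + (12 + 10 * (k0 - 1))) (T (2 * b) F) * ind (¬ Lk b (k0 - 1) F) := by
      rw [ind_of h4, mul_one]
      exact hh.sft _ _ _ _ t1 (by omega)
    have h6 := Finset.single_le_sum hnn (Finset.mem_Ico.2 ⟨by omega, by omega⟩ : k0 - 1 ∈ Ico κ N)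
    have h7 := hh.nn (z + (2 + 10 * κ)) (T (2 * b) F)
    linarith

/-- the claim at the scale `b` -/
def ClW (K : ℝ) (h : ℕ → ℕ → ℝ) (A : ℕ → ℕ → ℝ) (b : ℕ) : Prop :=
  ∀ S : Finset Edg, B (2 * b + 8) ⊆ S → ∀ φ : Finset Edg → ℝ, (∀ F, 0 ≤ φ F) →
    (∀ F, φ F = φ (F \ B (b - 1))) → ∀ z : ℕ,
    Ex P2 S (fun F => h z (T (2 * b) F) * φ F) ≤ K * A b z * √(Ex P2 S (fun F => φ F ^ 2))

/-- conditioning on the edges outside `D` -/
theorem condW {K : ℝ} {h : ℕ → ℕ → ℝ} {A : ℕ → ℕ → ℝ} {b : ℕ} (ih : ClW K h A b) (hK : 0 ≤ K)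
    {D S : Finset Edg} (hD : D ⊆ S) (hb : B (2 * b + 8) ⊆ D) {φ : Finset Edg → ℝ}
    (h0 : ∀ F, 0 ≤ φ F) (hφ : ∀ F, φ F = φ (F \ D)) {χ : Finset Edg → Prop}
    (hχ : ∀ F F' : Finset Edg, F \ B (b - 1) = F' \ B (b - 1) → (χ F ↔ χ F')) (z : ℕ)
    (hA : 0 ≤ A b z) :
    Ex P2 S (fun F => h z (T (2 * b) F) * (ind (χ F) * φ F)) ≤
      K * A b z * (√(Ex P2 S (fun F => φ F ^ 2)) * √(Ex P2 S (fun F => ind (χ F)))) := by
  have hS : S = (S \ D) ∪ D := by rw [Finset.sdiff_union_of_subset hD]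
  have hd : Disjoint (S \ D) D := Finset.sdiff_disjoint
  have e0 : ∀ f : Finset Edg → ℝ, Ex P2 S f =
      Ex P2 (S \ D) (fun X => Ex P2 D (fun Y => f (X ∪ Y))) := by
    intro f
    conv_lhs => rw [hS]
    exact Ex_union hd f
  have e1 : ∀ X, X ⊆ S \ D → ∀ Y, Y ⊆ D → φ (X ∪ Y) = φ X := by
    intro X hX Y hY
    rw [hφ (X ∪ Y), hφ X]
    congr 1
    ext e
    simp only [mem_sdiff, mem_union]
    constructor
    · rintro ⟨h1 | h1, h2⟩
      · exact ⟨h1, h2⟩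
      · exact absurd (hY h1) h2
    · rintro ⟨h1, h2⟩
      exact ⟨Or.inl h1, h2⟩
  have e2 : ∀ X, X ⊆ S \ D → ∀ Y, Y ⊆ D → T (2 * b) (X ∪ Y) = T (2 * b) Y := by
    intro X hX Y hY
    apply T_congr
    intro e he
    simp only [mem_union]
    constructor
    · rintro (h1 | h1)
      · exfalso
        have h2 : e ∈ D := hb (B_mono (by push_cast; omega) he)
        exact (mem_sdiff.1 (hX h1)).2 h2
      · exact h1
    · exact fun h1 => Or.inr h1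
  have e3 : Ex P2 S (fun F => φ F ^ 2) = Ex P2 (S \ D) (fun X => φ X ^ 2) := by
    rw [e0]
    apply Ex_congr
    intro X hX
    have : Ex P2 D (fun Y => φ (X ∪ Y) ^ 2) = Ex P2 D (fun _ => φ X ^ 2) := by
      apply Ex_congr
      intro Y hY
      rw [e1 X hX Y hY]
    rw [this, Ex_const]
  rw [e0, e3, e0 (fun F => ind (χ F))]
  have e4 : Ex P2 (S \ D) (fun X => Ex P2 D (fun Y =>
      h z (T (2 * b) (X ∪ Y)) * (ind (χ (X ∪ Y)) * φ (X ∪ Y)))) ≤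
      Ex P2 (S \ D) (fun X => K * A b z * (φ X * √(Ex P2 D (fun Y => ind (χ (X ∪ Y)))))) := by
    apply Ex_mono ok2
    intro X hX
    have k1 : Ex P2 D (fun Y => h z (T (2 * b) (X ∪ Y)) * (ind (χ (X ∪ Y)) * φ (X ∪ Y))) =
        Ex P2 D (fun Y => φ X * (h z (T (2 * b) Y) * ind (χ (X ∪ Y)))) := by
      apply Ex_congr
      intro Y hY
      rw [e1 X hX Y hY, e2 X hX Y hY]
      ring
    rw [k1, Ex_mul_left]
    have k2 := ih D hb (fun Y => ind (χ (X ∪ Y))) (fun _ => ind_nonneg _) (fun Y => by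
      apply ind_congr
      apply hχ
      ext e
      simp only [mem_sdiff, mem_union]
      constructor
      · rintro ⟨h1 | h1, h2⟩
        · exact ⟨Or.inl h1, h2⟩
        · exact ⟨Or.inr ⟨h1, h2⟩, h2⟩
      · rintro ⟨h1 | h1, h2⟩
        · exact ⟨Or.inl h1, h2⟩
        · exact ⟨Or.inr h1.1, h2⟩) z
    simp only [ind_pow] at k2
    calc φ X * Ex P2 D (fun Y => h z (T (2 * b) Y) * ind (χ (X ∪ Y))) ≤
          φ X * (K * A b z * √(Ex P2 D (fun Y => ind (χ (X ∪ Y))))) :=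
          mul_le_mul_of_nonneg_left k2 (h0 X)
      _ = _ := by ring
  refine e4.trans ?_
  rw [Ex_mul_left]
  refine mul_le_mul_of_nonneg_left ?_ (mul_nonneg hK hA)
  refine (Ex_cs (S \ D) φ (fun X => √(Ex P2 D (fun Y => ind (χ (X ∪ Y)))))).trans ?_
  have e5 : Ex P2 (S \ D) (fun X => √(Ex P2 D (fun Y => ind (χ (X ∪ Y)))) ^ 2) =
      Ex P2 (S \ D) (fun X => Ex P2 D (fun Y => ind (χ (X ∪ Y)))) := by
    apply Ex_congr
    intro X _
    exact Real.sq_sqrt (Ex_nonneg ok2 fun _ _ => ind_nonneg _)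
  rw [e5]

/-- the induction step -/
theorem clW_step {t c0 K0 : ℝ} (ht : 1 ≤ t) (hc0 : 0 < c0) {C r : ℝ} (hC : 0 < C) (hr0 : 0 < r)
    (hr : t ^ 10 * r = 1 / 2)
    (htail : ∀ (b : ℕ) (S : Finset Edg), 1 ≤ b → B (8 * b) ⊆ S → ∀ k : ℕ,
      Ex P2 S (fun F => ind (¬ Lk b k F)) ≤ C * (r ^ 2) ^ k)
    {κ : ℕ} (hκ : c0 * (t ^ 12 * √C) * (2 * (1 / 2) ^ κ) ≤ 1 / 2) {K : ℝ}
    (hK : 2 * (c0 * t ^ (2 + 10 * κ)) ≤ K) {b0 : ℕ} {h : ℕ → ℕ → ℝ} {A : ℕ → ℕ → ℝ}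
    (hh : HypW t c0 K0 b0 h A) {b : ℕ} (hbb : b ≤ b0)
    (hb : 24 ≤ b) (ih : ClW K h A ((b + 3) / 4)) : ClW K h A b := by
  intro S hS φ h0 hφ z
  have hinc := fun w => hh.inc b (z + w) hb
  obtain ⟨b', hb'⟩ : ∃ b', b' = (b + 3) / 4 := ⟨_, rfl⟩
  rw [← hb'] at ih
  simp only [← hb'] at hinc
  have b1 : 1 ≤ b' := by omega
  have b2 : 2 * b ≤ 8 * b' := by omega
  have b2' : 2 * b' ≤ 2 * b := by omega
  have b3 : 8 * b' ≤ 2 * b + 8 := by omega
  have b4 : 2 * b' + 9 ≤ b := by omega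
  have b5 : b' < b0 := by omega
  have ht0 : 0 < t := by linarith
  have hK0 : 0 ≤ K := le_trans (by positivity) hK
  obtain ⟨N, hN⟩ := lk_top b1
  have s1 : B (8 * b') ⊆ S := (B_mono (by omega)).trans hS
  obtain ⟨D, hDd⟩ : ∃ D, D = B ((b : ℤ) - 1) := ⟨_, rfl⟩
  have hD : D ⊆ S := by rw [hDd]; exact (B_mono (by omega)).trans hS
  have hBD : B (2 * b' + 8) ⊆ D := by rw [hDd]; exact B_mono (by omega)
  rw [← hDd] at hφ
  obtain ⟨q, hq⟩ : ∃ q, q = √(Ex P2 S (fun F => φ F ^ 2)) := ⟨_, rfl⟩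
  have hq0 : 0 ≤ q := by rw [hq]; exact Real.sqrt_nonneg _
  have hA0 := fun z => hh.A0 b' z b1
  have hAz : 0 ≤ A b z := hh.A0 b z (by omega)
  have hAb : ∀ w, A b' (z + w) ≤ t ^ w * (c0 * A b z) := fun w => by
    have i1 := hh.sh b' z w b1
    have i2 := hinc 0
    rw [add_zero] at i2
    exact i1.trans (mul_le_mul_of_nonneg_left i2 (by positivity))
  -- pointwise
  have p1 : Ex P2 S (fun F => h z (T (2 * b) F) * φ F) ≤
      Ex P2 S (fun F => h (z + (2 + 10 * κ)) (T (2 * b') F) * φ F +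
        ∑ k ∈ Finset.Ico κ N, h (z + (12 + 10 * k)) (T (2 * b') F) *
          (ind (¬ Lk b' k F) * φ F)) := by
    apply Ex_mono ok2
    intro F _
    have k1 := ptW (κ := κ) b1 hN hh z b2' b2 F
    calc h z (T (2 * b) F) * φ F ≤ (h (z + (2 + 10 * κ)) (T (2 * b') F) +
          ∑ k ∈ Finset.Ico κ N, h (z + (12 + 10 * k)) (T (2 * b') F) * ind (¬ Lk b' k F)) * φ F :=
          mul_le_mul_of_nonneg_right k1 (h0 F)
      _ = _ := by
          rw [add_mul, Finset.sum_mul]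
          congr 1
          apply Finset.sum_congr rfl
          intro k _
          ring
  rw [Ex_add, Ex_sum] at p1
  -- the main term
  have p2 : Ex P2 S (fun F => h (z + (2 + 10 * κ)) (T (2 * b') F) * φ F) ≤
      t ^ (2 + 10 * κ) * (c0 * A b z) * q := by
    have i1 : Ex P2 S (fun F => h (z + (2 + 10 * κ)) (T (2 * b') F) * φ F) =
        Ex P2 S (fun F => h (z + (2 + 10 * κ)) (T (2 * b') F)) * Ex P2 S φ := by
      refine Ex_mul_indep (S := B (2 * b')) (T := S \ D) ((B_mono (by omega)).trans s1)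
        Finset.sdiff_subset ?_ ?_ ?_
      · rw [Finset.disjoint_left]
        intro e he he'
        exact (mem_sdiff.1 he').2 (hBD (B_mono (by omega) he))
      · intro F _
        rw [T_congr (F := F) (F' := F ∩ B (2 * b')) (fun e he => by
          push_cast at he
          rw [mem_inter]
          exact ⟨fun h1 => ⟨h1, he⟩, fun h1 => h1.1⟩)]
      · intro F hF
        rw [hφ F]
        congr 1
        ext e
        simp only [mem_sdiff, mem_inter]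
        exact ⟨fun h1 => ⟨h1.1, hF h1.1, h1.2⟩, fun h1 => ⟨h1.1, h1.2.2⟩⟩
    have i2 : Ex P2 S (fun F => h (z + (2 + 10 * κ)) (T (2 * b') F)) =
        Ex P2 (B (2 * b')) (fun F => h (z + (2 + 10 * κ)) (T (2 * b') F)) := by
      apply Ex_local ((B_mono (by omega)).trans s1)
      intro F _
      rw [T_congr (F := F) (F' := F ∩ B (2 * b')) (fun e he => by
          push_cast at he
          rw [mem_inter]
          exact ⟨fun h1 => ⟨h1, he⟩, fun h1 => h1.1⟩)]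
    rw [i1, i2]
    have i5 := hAb (2 + 10 * κ)
    have i3 := (hh.up b' (z + (2 + 10 * κ)) b1 b5).trans i5
    have i4 : Ex P2 S φ ≤ q := by rw [hq]; exact Ex_le_sqrt S φ
    exact mul_le_mul i3 i4 (Ex_nonneg ok2 fun F _ => h0 F) (by positivity)
  -- the other terms
  have p3 : ∀ k ∈ Finset.Ico κ N, Ex P2 S (fun F => h (z + (12 + 10 * k)) (T (2 * b') F) *
      (ind (¬ Lk b' k F) * φ F)) ≤ K * (A b z * q) * (c0 * (t ^ 12 * √C)) * (1 / 2) ^ k := by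
    intro k _
    have i1 := condW ih hK0 hD hBD h0 hφ (χ := fun F => ¬ Lk b' k F) (lk_sdiff b1)
      (z + (12 + 10 * k)) (hA0 _)
    refine i1.trans ?_
    rw [← hq]
    have i2 : √(Ex P2 S (fun F => ind (¬ Lk b' k F))) ≤ √C * r ^ k := by
      have := Real.sqrt_le_sqrt (htail b' S b1 s1 k)
      rwa [Real.sqrt_mul hC.le, ← pow_mul, mul_comm 2 k, pow_mul, Real.sqrt_sq (by positivity)]
        at this
    have i3 := hAb (12 + 10 * k)
    calc K * A b' (z + (12 + 10 * k)) * (q * √(Ex P2 S (fun F => ind (¬ Lk b' k F)))) ≤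
        K * (t ^ (12 + 10 * k) * (c0 * A b z)) * (q * (√C * r ^ k)) := by
          apply mul_le_mul (mul_le_mul_of_nonneg_left i3 hK0) _ (by positivity) (by positivity)
          exact mul_le_mul_of_nonneg_left i2 hq0
      _ = K * (A b z * q) * (c0 * (t ^ 12 * √C)) * ((t ^ 10 * r) ^ k) := by
          rw [pow_add, pow_mul t 10 k, mul_pow]
          ring
      _ = _ := by rw [hr]
  have p4 := Finset.sum_le_sum p3
  rw [← Finset.mul_sum] at p4
  have p5 : K * (A b z * q) * (c0 * (t ^ 12 * √C)) * ∑ k ∈ Finset.Ico κ N, (1 / 2 : ℝ) ^ k ≤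
      K * (A b z * q) * (1 / 2) := by
    calc K * (A b z * q) * (c0 * (t ^ 12 * √C)) * ∑ k ∈ Finset.Ico κ N, (1 / 2 : ℝ) ^ k ≤
        K * (A b z * q) * (c0 * (t ^ 12 * √C)) * (2 * (1 / 2) ^ κ) :=
          mul_le_mul_of_nonneg_left (half_sum κ N) (by positivity)
      _ = K * (A b z * q) * (c0 * (t ^ 12 * √C) * (2 * (1 / 2) ^ κ)) := by ring
      _ ≤ _ := mul_le_mul_of_nonneg_left hκ (by positivity)
  have p6 : c0 * t ^ (2 + 10 * κ) * (A b z * q) ≤ K / 2 * (A b z * q) :=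
    mul_le_mul_of_nonneg_right (by linarith) (by positivity)
  rw [← hq]
  have e : K * A b z * q = K * (A b z * q) := by ring
  rw [e]
  have e2 : t ^ (2 + 10 * κ) * (c0 * A b z) * q = c0 * t ^ (2 + 10 * κ) * (A b z * q) := by ring
  rw [e2] at p2
  linarith

/-- the base case -/
theorem clW_base {t c0 K0 : ℝ} {K : ℝ} (hK0 : 0 ≤ K0) (hK : K0 ≤ K) {b0 : ℕ}
    {h : ℕ → ℕ → ℝ} {A : ℕ → ℕ → ℝ}
    (hh : HypW t c0 K0 b0 h A) {b : ℕ} (hb1 : 1 ≤ b) (hb : b < 24) : ClW K h A b := by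
  intro S hS φ h0 hφ z
  have hA := hh.A0 b z hb1
  have k2 : Ex P2 S (fun F => h z (T (2 * b) F) * φ F) ≤ K0 * A b z * Ex P2 S φ := by
    rw [← Ex_mul_left]
    exact Ex_mono ok2 fun F _ => mul_le_mul_of_nonneg_right (hh.base b z _ hb1 hb) (h0 F)
  refine k2.trans ?_
  exact mul_le_mul (mul_le_mul_of_nonneg_right hK hA) (Ex_le_sqrt S φ)
    (Ex_nonneg ok2 fun F _ => h0 F) (mul_nonneg (hK0.trans hK) hA)

/-- the decoupling inequality -/
theorem decW {t c0 K0 : ℝ} (ht : 1 ≤ t) (hc0 : 0 < c0) (hK0 : 0 ≤ K0) : ∃ K : ℝ, 0 < K ∧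
    ∀ (b0 : ℕ) (h : ℕ → ℕ → ℝ) (A : ℕ → ℕ → ℝ),
    HypW t c0 K0 b0 h A → ∀ b : ℕ, 1 ≤ b → b ≤ b0 → ClW K h A b := by
  have ht0 : 0 < t := by linarith
  obtain ⟨r, hr⟩ : ∃ r : ℝ, r = 1 / (2 * t ^ 10) := ⟨_, rfl⟩
  have hr0 : 0 < r := by rw [hr]; positivity
  have hr1 : t ^ 10 * r = 1 / 2 := by rw [hr]; field_simp
  obtain ⟨C, hC, htail⟩ := lk_tail (ρ := r ^ 2) (by positivity)
  obtain ⟨κ, hκ⟩ : ∃ κ : ℕ, c0 * (t ^ 12 * √C) * (2 * (1 / 2) ^ κ) ≤ 1 / 2 := by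
    have h1 : 0 < 1 / (4 * (c0 * (t ^ 12 * √C) + 1)) := by positivity
    obtain ⟨κ, hκ⟩ := exists_pow_lt_of_lt_one h1 (show (1 / 2 : ℝ) < 1 by norm_num)
    refine ⟨κ, ?_⟩
    have h2 : (1 / 2 : ℝ) ^ κ * (4 * (c0 * (t ^ 12 * √C) + 1)) ≤ 1 := by
      have := (lt_div_iff₀ (by positivity)).1 hκ
      linarith
    have h3 : 0 ≤ (1 / 2 : ℝ) ^ κ := by positivity
    nlinarith
  refine ⟨max (K0 + 1) (2 * (c0 * t ^ (2 + 10 * κ))), lt_max_of_lt_left (by linarith), ?_⟩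
  intro b0 h A hh b
  induction b using Nat.strong_induction_on with
  | _ b ih =>
    intro hb hbb
    rcases Nat.lt_or_ge b 24 with hb2 | hb2
    · exact clW_base hK0 ((by linarith : K0 ≤ K0 + 1).trans (le_max_left _ _)) hh hb hb2
    · exact clW_step ht hc0 hC hr0 hr1 htail hκ (le_max_right _ _) hh hbb hb2
        (ih ((b + 3) / 4) (by omega) (by omega) (by omega))

end Pool.Agent.U154.BE
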